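import Mathlib
import Pool.Agent.BH.Net
import Pool.Agent.BH.Menger

/-!
# States and residual networks (Beineke–Harary, all pairs)

Definitions for the proof of the network statement for all `p` and `N`.
-/

namespace BHNet.GB

open Classical BHNet

set_option linter.unusedSectionVars false

variable {V A : Type*} [Fintype V] [DecidableEq V] [Fintype A] [DecidableEq A]

/-- `1` if the arc enters `X`, `-1` if it leaves `X`, `0` otherwise. -/
def chi (D : Net V A) (X : Finset V) (a : A) : ℤ :=
  (if D.hd a ∈ X then 1 else 0) - (if D.tl a ∈ X then 1 else 0)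

/-- net amount of `f` entering `X` -/
def nt (D : Net V A) (f : A → ℤ) (X : Finset V) : ℤ := ∑ a, f a * chi D X a

/-- the residual network: `(a, false)` is the arc `a`, `(a, true)` is `a` reversed -/
def res (D : Net V A) : Net V (A × Bool) where
  tl := fun x => if x.2 = true then D.hd x.1 else D.tl x.1
  hd := fun x => if x.2 = true then D.tl x.1 else D.hd x.1

/-- A state: a complete flow `g` of value `p` and a flow `h` of value `r`. -/
structure State (D : Net V A) (Sp : Finset A) (s t : V) (p r : ℕ) where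
  g : A → ℤ
  h : A → ℤ
  g01 : ∀ a, g a = 0 ∨ g a = 1
  h0 : ∀ a, 0 ≤ h a
  gh : ∀ a, a ∉ Sp → g a + h a ≤ 1
  fg : ∀ X : Finset V, s ∉ X → nt D g X = if t ∈ X then (p : ℤ) else 0
  fh : ∀ X : Finset V, s ∉ X → nt D h X = if t ∈ X then (r : ℤ) else 0

variable {D : Net V A} {Sp : Finset A} {s t : V} {p r : ℕ}

/-- the unused arcs (for special arcs only `g` counts) -/
noncomputable def State.N (σ : State D Sp s t p r) : Finset A :=
  Finset.univ.filter (fun a => σ.g a = 0 ∧ (a ∈ Sp ∨ σ.h a = 0))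

/-- the arcs of `S` with both ends in `Y` -/
def ins (D : Net V A) (Y : Finset V) : Finset A :=
  Finset.univ.filter (fun a => D.tl a ∈ Y ∧ D.hd a ∈ Y)

/-- residual arcs for `g` -/
noncomputable def State.Rg (σ : State D Sp s t p r) : Finset (A × Bool) :=
  Finset.univ.filter (fun x => (x.2 = false ∧ x.1 ∈ σ.N) ∨ (x.2 = true ∧ σ.g x.1 = 1))

/-- residual arcs for `h`, where unused ordinary arcs inside `Y` are not available -/
noncomputable def State.Rh (σ : State D Sp s t p r) (Y : Finset V) : Finset (A × Bool) :=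
  Finset.univ.filter (fun x =>
    (x.2 = false ∧ (x.1 ∈ Sp ∨ (x.1 ∈ σ.N ∧ ¬ (D.tl x.1 ∈ Y ∧ D.hd x.1 ∈ Y)))) ∨
    (x.2 = true ∧ 1 ≤ σ.h x.1))

/-- the vertices from which `S` can be reached along `R` -/
noncomputable def back (D : Net V A) (R : Finset (A × Bool)) (S : Finset V) : Finset V :=
  Finset.univ.filter (fun v => ∃ u ∈ S, (res D).Reach R v u)

/-- heads of the ordinary arcs used by `h` that enter `Y` -/
noncomputable def State.hds (σ : State D Sp s t p r) (Y : Finset V) : Finset V :=
  (Finset.univ.filter (fun a => a ∉ Sp ∧ σ.h a = 1 ∧ D.tl a ∉ Y ∧ D.hd a ∈ Y)).image D.hd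

/-- the pair `(W_i, B_{i-1})` of the chain -/
noncomputable def State.chain (σ : State D Sp s t p r) : ℕ → Finset V × Finset V
  | 0 => (back D (σ.Rh ∅) {t}, back D (σ.Rh ∅) {t})
  | n + 1 =>
    let W := (σ.chain n).1
    let B := (σ.chain n).2
    let Y := back D σ.Rg W
    let B' := B ∪ back D (σ.Rh Y) (σ.hds Y)
    (Y ∪ B', B')

noncomputable def State.W (σ : State D Sp s t p r) (n : ℕ) : Finset V := (σ.chain n).1
noncomputable def State.B (σ : State D Sp s t p r) (n : ℕ) : Finset V := (σ.chain n).2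
noncomputable def State.Y (σ : State D Sp s t p r) (n : ℕ) : Finset V := back D σ.Rg (σ.W n)

lemma State.W_zero (σ : State D Sp s t p r) : σ.W 0 = back D (σ.Rh ∅) {t} := rfl
lemma State.B_zero (σ : State D Sp s t p r) : σ.B 0 = back D (σ.Rh ∅) {t} := rfl
lemma State.B_succ (σ : State D Sp s t p r) (n : ℕ) :
    σ.B (n + 1) = σ.B n ∪ back D (σ.Rh (σ.Y n)) (σ.hds (σ.Y n)) := rfl
lemma State.W_succ (σ : State D Sp s t p r) (n : ℕ) : σ.W (n + 1) = σ.Y n ∪ σ.B (n + 1) := rfl

/-- the sequence `B 0, Y 0, B 1, Y 1, B 2, …` -/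
noncomputable def State.seq (σ : State D Sp s t p r) (j : ℕ) : Finset V :=
  if j % 2 = 0 then σ.B (j / 2) else σ.Y (j / 2)

end BHNet.GB
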