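import Mathlib
import Pool.Agent.Lib.MP_3940ed_co.GB.Defs

/-!
# Reachability, residual cycles, net amounts
-/

namespace BHNet.GB

open Classical BHNet

set_option linter.unusedSectionVars false

variable {V A : Type*} [Fintype V] [DecidableEq V] [Fintype A] [DecidableEq A]
variable {D : Net V A}

lemma chi_enter {X : Finset V} {a : A} (h1 : D.tl a ∉ X) (h2 : D.hd a ∈ X) : chi D X a = 1 := by
  simp [chi, h1, h2]

lemma chi_leave {X : Finset V} {a : A} (h1 : D.tl a ∈ X) (h2 : D.hd a ∉ X) : chi D X a = -1 := by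
  simp [chi, h1, h2]

/-- the net amount is the entering amount minus the leaving amount -/
lemma nt_eq (f : A → ℤ) (X : Finset V) :
    nt D f X = ∑ a ∈ D.ent Finset.univ X, f a - ∑ a ∈ D.out Finset.univ X, f a := by
  unfold nt Net.ent Net.out
  rw [Finset.sum_filter, Finset.sum_filter, ← Finset.sum_sub_distrib]
  apply Finset.sum_congr rfl
  intro a _
  unfold chi
  by_cases h1 : D.tl a ∈ X <;> by_cases h2 : D.hd a ∈ X <;> simp [h1, h2]

/-- `T` is closed under predecessors along `R` -/
def Cl (D : Net V A) (R : Finset (A × Bool)) (T : Finset V) : Prop :=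
  ∀ x ∈ R, (res D).hd x ∈ T → (res D).tl x ∈ T

lemma subset_back (R : Finset (A × Bool)) (S : Finset V) : S ⊆ back D R S := by
  intro v hv
  unfold back
  rw [Finset.mem_filter]
  exact ⟨Finset.mem_univ _, v, hv, Relation.ReflTransGen.refl⟩

lemma back_closed (R : Finset (A × Bool)) (S : Finset V) : Cl D R (back D R S) := by
  intro x hx hh
  unfold back at hh ⊢
  rw [Finset.mem_filter] at hh ⊢
  obtain ⟨-, u, hu, hr⟩ := hh
  exact ⟨Finset.mem_univ _, u, hu, Relation.ReflTransGen.head ⟨x, hx, rfl, rfl⟩ hr⟩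

lemma reach_closed {R : Finset (A × Bool)} {T : Finset V} (hT : Cl D R T) {u v : V}
    (h : (res D).Reach R u v) (hv : v ∈ T) : u ∈ T := by
  unfold Net.Reach at h
  induction h using Relation.ReflTransGen.head_induction_on with
  | refl => exact hv
  | head h1 h2 ih =>
    obtain ⟨a, ha, rfl, rfl⟩ := h1
    exact hT a ha ih

lemma back_min {R : Finset (A × Bool)} {S T : Finset V} (hS : S ⊆ T) (hT : Cl D R T) :
    back D R S ⊆ T := by
  intro v hv
  unfold back at hv
  rw [Finset.mem_filter] at hv
  obtain ⟨-, u, hu, hr⟩ := hv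
  exact reach_closed hT hr (hS hu)

/-- comparison of two closures: only the arcs inside the smaller one matter -/
lemma back_mono_in {R R' : Finset (A × Bool)} {S S' : Finset V} (hS : S ⊆ S')
    (hR : ∀ x ∈ R, (res D).hd x ∈ back D R S → (res D).tl x ∈ back D R S → x ∈ R') :
    back D R S ⊆ back D R' S' := by
  have h1 : back D R S ⊆ back D R S ∩ back D R' S' := by
    apply back_min
    · intro v hv
      rw [Finset.mem_inter]
      exact ⟨subset_back R S hv, subset_back R' S' (hS hv)⟩
    · intro x hx hh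
      rw [Finset.mem_inter] at hh ⊢
      have h2 := back_closed R S x hx hh.1
      exact ⟨h2, back_closed R' S' x (hR x hx hh.1 h2) hh.2⟩
  exact h1.trans Finset.inter_subset_right

lemma mem_back_single {R : Finset (A × Bool)} {u v : V} :
    u ∈ back D R {v} ↔ (res D).Reach R u v := by
  unfold back
  simp

/-- a trail starting outside a closed set stays outside -/
lemma trail_avoid {R : Finset (A × Bool)} {T : Finset V} (hT : Cl D R T) {u v : V}
    {Q : Finset (A × Bool)} (h : (res D).IsPath v Q u) (hQ : Q ⊆ R) (hu : u ∉ T) :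
    ∀ x ∈ Q, (res D).tl x ∉ T ∧ (res D).hd x ∉ T := by
  induction h with
  | nil => intro x hx; simp at hx
  | cons Q a h1 h2 ih =>
    have h3 : (res D).hd a ∉ T := fun h4 => hu (hT a (hQ (Finset.mem_insert_self a Q)) h4)
    intro x hx
    rw [Finset.mem_insert] at hx
    rcases hx with rfl | hx
    · exact ⟨hu, h3⟩
    · exact ih ((Finset.subset_insert a Q).trans hQ) h3 x hx

/-- a reachable vertex can be reached without the arcs leaving it -/
lemma reach_erase {R : Finset (A × Bool)} {u v : V} (x0 : A × Bool) (hx : (res D).tl x0 = v)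
    (h : (res D).Reach R u v) : (res D).Reach (R.erase x0) u v := by
  by_contra hcon
  have h1 : u ∉ back D (R.erase x0) {v} := by rw [mem_back_single]; exact hcon
  apply h1
  apply reach_closed (R := R) _ h (subset_back _ _ (Finset.mem_singleton_self v))
  intro x hxR hh
  by_cases hxx : x = x0
  · rw [hxx, hx]; exact subset_back _ _ (Finset.mem_singleton_self v)
  · exact back_closed _ _ x (Finset.mem_erase.mpr ⟨hxx, hxR⟩) hh

lemma trail_sum {u v : V} {Q : Finset (A × Bool)} (h : (res D).IsPath v Q u) (X : Finset V) :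
    ∑ x ∈ Q, chi (res D) X x = (if v ∈ X then 1 else 0) - (if u ∈ X then 1 else 0) := by
  induction h with
  | nil => simp
  | cons Q a h1 h2 ih =>
    rw [Finset.sum_insert h1, ih]
    unfold chi
    ring

/-- a residual cycle through a given residual arc -/
lemma cycle_exists {R : Finset (A × Bool)} {x0 : A × Bool} (hx0 : x0 ∈ R)
    (h : (res D).hd x0 ∈ back D R {(res D).tl x0}) :
    ∃ C, C ⊆ R ∧ x0 ∈ C ∧ (∀ X, ∑ x ∈ C, chi (res D) X x = 0) ∧
      ∀ T, Cl D R T → (res D).hd x0 ∉ T → ∀ x ∈ C, (res D).tl x ∉ T ∧ (res D).hd x ∉ T := by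
  rw [mem_back_single] at h
  obtain ⟨Q, hQ, hp⟩ := Net.exists_path (reach_erase x0 rfl h)
  have hx : x0 ∉ Q := fun h1 => (Finset.mem_erase.mp (hQ h1)).1 rfl
  have hQR : Q ⊆ R := hQ.trans (Finset.erase_subset _ _)
  refine ⟨insert x0 Q, Finset.insert_subset hx0 hQR, Finset.mem_insert_self _ _, ?_, ?_⟩
  · intro X
    rw [Finset.sum_insert hx, trail_sum hp]
    unfold chi
    ring
  · intro T hT hh x hxC
    rw [Finset.mem_insert] at hxC
    rcases hxC with rfl | hxC
    · refine ⟨fun h1 => hh ?_, hh⟩
      exact reach_closed hT h h1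
    · exact trail_avoid hT hp hQR hh x hxC

end BHNet.GB
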