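import Mathlib
import Pool.Agent.BH.Graph
import Pool.Agent.Lib.MP_3940ed_co.GB.Base

/-!
# From the existence of full states to the core statement and the graph statement
-/

namespace BHNet.GB

open Classical BHNet

set_option linter.unusedSectionVars false

variable {V A : Type*} [Fintype V] [DecidableEq V] [Fintype A] [DecidableEq A]
variable {D : Net V A} {Sp : Finset A} {s t : V} {p : ℕ}

/-- Menger's theorem gives the first state. -/
lemma state_zero (h : ∀ Z : Finset V, t ∈ Z → s ∉ Z → p ≤ (D.ent Finset.univ Z).card) :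
    Nonempty (State D Sp s t p 0) := by
  obtain ⟨P, -, hP2, hP3⟩ := menger D s t p Finset.univ h
  refine ⟨{ g := fun a => ∑ i, if a ∈ P i then 1 else 0
            h := fun _ => 0
            g01 := ?_, h0 := fun _ => le_rfl, gh := ?_, fg := ?_, fh := ?_ }⟩
  · intro a
    by_cases h1 : ∃ i, a ∈ P i
    · obtain ⟨i, hi⟩ := h1
      right
      rw [Finset.sum_eq_single i]
      · simp [hi]
      · intro j _ hj
        have := Finset.disjoint_left.mp (hP2 i j (fun h => hj h.symm)) hi
        simp [this]
      · intro h; exact absurd (Finset.mem_univ _) h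
    · left
      push Not at h1
      apply Finset.sum_eq_zero
      intro i _
      simp [h1 i]
  · intro a _
    by_cases h1 : ∃ i, a ∈ P i
    · obtain ⟨i, hi⟩ := h1
      rw [Finset.sum_eq_single i]
      · simp [hi]
      · intro j _ hj
        have := Finset.disjoint_left.mp (hP2 i j (fun h => hj h.symm)) hi
        simp [this]
      · intro h; exact absurd (Finset.mem_univ _) h
    · push Not at h1
      have : (∑ i, if a ∈ P i then (1 : ℤ) else 0) = 0 := by
        apply Finset.sum_eq_zero
        intro i _
        simp [h1 i]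
      rw [this]
      norm_num
  · intro X hs
    rw [nt_eq]
    have h1 : ∀ F : Finset A, (∑ a ∈ F, ∑ i, if a ∈ P i then (1 : ℤ) else 0)
        = ∑ i, ((F ∩ P i).card : ℤ) := by
      intro F
      rw [Finset.sum_comm]
      apply Finset.sum_congr rfl
      intro i _
      rw [← Finset.sum_filter, Finset.filter_mem_eq_inter]
      simp
    rw [h1, h1, ← Finset.sum_sub_distrib]
    have h2 : ∀ i, ((D.ent Finset.univ X ∩ P i).card : ℤ) - ((D.out Finset.univ X ∩ P i).card : ℤ)
        = if t ∈ X then 1 else 0 := by
      intro i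
      have h3 := (hP3 i).balance X
      rw [if_neg hs] at h3
      have h4 : D.ent (P i) X = D.ent Finset.univ X ∩ P i := by
        ext a; simp [Net.ent]; tauto
      have h5 : D.out (P i) X = D.out Finset.univ X ∩ P i := by
        ext a; simp [Net.out]; tauto
      rw [h4, h5] at h3
      split_ifs at h3 ⊢ <;> omega
    rw [Finset.sum_congr rfl (fun i _ => h2 i)]
    split_ifs <;> simp
  · intro X _
    simp [nt]

/-- A full state gives the set of arcs asked for by the core statement. -/
lemma core_of_state {q : ℕ} (σ : State D Sp s t p q) :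
    ∃ T : Finset A, Disjoint T Sp ∧
      (∀ Z : Finset V, t ∈ Z → s ∉ Z → p ≤ (D.ent Tᶜ Z).card) ∧
      (∀ Z : Finset V, t ∈ Z → s ∉ Z → (D.ent Sp Z).card = 0 → q ≤ (D.ent T Z).card) := by
  refine ⟨Finset.univ.filter (fun a => a ∉ Sp ∧ 1 ≤ σ.h a), ?_, ?_, ?_⟩
  · rw [Finset.disjoint_left]
    intro a ha
    exact (Finset.mem_filter.mp ha).2.1
  · intro Z ht hs
    have h1 := σ.fg Z hs
    rw [nt_eq, if_pos ht] at h1
    have h2 : (0 : ℤ) ≤ ∑ a ∈ D.out Finset.univ Z, σ.g a := by
      apply Finset.sum_nonneg
      intro a _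
      rcases σ.g01 a with h | h <;> rw [h] <;> norm_num
    have h3 : ∑ a ∈ D.ent Finset.univ Z, σ.g a
        ≤ ((D.ent (Finset.univ.filter (fun a => a ∉ Sp ∧ 1 ≤ σ.h a))ᶜ Z).card : ℤ) := by
      have h4 : ∑ a ∈ D.ent Finset.univ Z, σ.g a ≤ ∑ a ∈ D.ent Finset.univ Z,
          (if a ∈ (Finset.univ.filter (fun a => a ∉ Sp ∧ 1 ≤ σ.h a))ᶜ then (1 : ℤ) else 0) := by
        apply Finset.sum_le_sum
        intro a _
        split_ifs with h5
        · rcases σ.g01 a with h | h <;> rw [h]
          norm_num
        · rw [Finset.mem_compl, not_not, Finset.mem_filter] at h5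
          have := σ.gh a h5.2.1
          have := h5.2.2
          omega
      refine h4.trans (le_of_eq ?_)
      rw [← Finset.sum_filter, Finset.sum_const, nsmul_eq_mul, mul_one]
      congr 2
      ext a
      simp only [Finset.mem_filter, Net.mem_ent, Finset.mem_univ, true_and]
      tauto
    omega
  · intro Z ht hs hc
    rw [Finset.card_eq_zero] at hc
    have h1 := σ.fh Z hs
    rw [nt_eq, if_pos ht] at h1
    have h2 : (0 : ℤ) ≤ ∑ a ∈ D.out Finset.univ Z, σ.h a :=
      Finset.sum_nonneg (fun a _ => σ.h0 a)
    have h3 : ∑ a ∈ D.ent Finset.univ Z, σ.h a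
        ≤ ((D.ent (Finset.univ.filter (fun a => a ∉ Sp ∧ 1 ≤ σ.h a)) Z).card : ℤ) := by
      have h4 : ∑ a ∈ D.ent Finset.univ Z, σ.h a ≤ ∑ a ∈ D.ent Finset.univ Z,
          (if a ∈ (Finset.univ.filter (fun a => a ∉ Sp ∧ 1 ≤ σ.h a)) then (1 : ℤ) else 0) := by
        apply Finset.sum_le_sum
        intro a ha
        have ha' : a ∉ Sp := by
          intro h5
          have h6 : a ∈ D.ent Sp Z := by
            rw [Net.mem_ent] at ha ⊢
            exact ⟨h5, ha.2⟩
          rw [hc] at h6
          simp at h6
        have h7 := σ.gh a ha'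
        have h8 : 0 ≤ σ.g a := by rcases σ.g01 a with h | h <;> rw [h] <;> norm_num
        split_ifs with h5
        · omega
        · rw [Finset.mem_filter] at h5
          have : ¬ 1 ≤ σ.h a := fun h => h5 ⟨Finset.mem_univ _, ha', h⟩
          omega
      refine h4.trans (le_of_eq ?_)
      rw [← Finset.sum_filter, Finset.sum_const, nsmul_eq_mul, mul_one]
      congr 2
      ext a
      simp only [Finset.mem_filter, Net.mem_ent, Finset.mem_univ, true_and]
      tauto
    omega

/-- **The core statement for all `q`, from the one-step theorem.** -/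
theorem core_of_step.{u, v} (q : ℕ)
    (hstep : ∀ (V : Type u) (A : Type v) [Fintype V] [DecidableEq V] [Fintype A] [DecidableEq A]
      (D : Net V A) (Sp : Finset A) (s t : V) (p r : ℕ), s ≠ t → 1 ≤ p → r < q →
      (∀ Z : Finset V, t ∈ Z → s ∉ Z → (D.ent Sp Z).card < p →
        p + q ≤ (D.ent Finset.univ Z).card) →
      State D Sp s t p r → Nonempty (State D Sp s t p (r + 1))) : CoreStatement.{u, v} q := by
  intro V A _ _ _ _ D Sp s t p hp H
  by_cases hst : s = t
  · subst hst
    exact ⟨∅, Finset.disjoint_empty_left _, fun Z h1 h2 => absurd h1 h2,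
      fun Z h1 h2 => absurd h1 h2⟩
  have h0 : Nonempty (State D Sp s t p 0) := by
    apply state_zero
    intro Z h1 h2
    by_cases h3 : (D.ent Sp Z).card < p
    · have := H Z h1 h2 h3
      omega
    · have := D.ent_mono (Finset.subset_univ Sp) Z
      omega
  have h1 : ∀ r ≤ q, Nonempty (State D Sp s t p r) := by
    intro r
    induction r with
    | zero => intro _; exact h0
    | succ r ih =>
      intro hr
      obtain ⟨σ⟩ := ih (by omega)
      exact hstep V A D Sp s t p r hst hp (by omega) H σ
  obtain ⟨σ⟩ := h1 q le_rfl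
  exact core_of_state σ

/-- **The Beineke–Harary statement for `(k, l)`, from the core statement for `l - 1`.** -/
theorem holds_of_core.{u, v} {k l : ℕ} (hl : 1 ≤ l)
    (hcore : CoreStatement.{max u v, max u v} (l - 1)) : BeinekeHarary.Holds.{u, v} k l := by
  apply BeinekeHarary.holds_of_net
  have h1 : k + l = 1 * (k + 1) + (l - 1) := by omega
  rw [h1]
  exact netStatement_of_core hcore (Nat.le_add_left 1 k) le_rfl

end BHNet.GB
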