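import Mathlib

/-!
# The lexicographic potential
-/

namespace BHNet.GB

open Classical

set_option linter.unusedSectionVars false

variable {V : Type*} [Fintype V] [DecidableEq V]

/-- the sizes of the first `L` sets of a sequence, compared lexicographically -/
noncomputable def pot (L : ℕ) (T : ℕ → Finset V) : Lex (Fin L → Fin (Fintype.card V + 1)) :=
  toLex (fun j => ⟨(T j).card, Nat.lt_succ_of_le (Finset.card_le_univ _)⟩)

lemma pot_lt {L : ℕ} {T T' : ℕ → Finset V} {j0 : ℕ} (hj0 : j0 < L)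
    (h1 : ∀ j ≤ j0, (∀ i < j, T i = T' i) → T j ⊆ T' j)
    (h2 : (∀ i < j0, T i = T' i) → T j0 ≠ T' j0) : pot L T < pot L T' := by
  have h3 : ∃ j, j ≤ j0 ∧ T j ≠ T' j := by
    by_contra h3
    push Not at h3
    exact h2 (fun i hi => h3 i hi.le) (h3 j0 le_rfl)
  obtain ⟨h4, h5⟩ := Nat.find_spec h3
  set j := Nat.find h3 with hj
  have h6 : ∀ i < j, T i = T' i := by
    intro i hi
    by_contra h7
    exact Nat.find_min h3 hi ⟨hi.le.trans h4, h7⟩
  have h7 := h1 j h4 h6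
  have h8 : (T j).card < (T' j).card := Finset.card_lt_card (lt_of_le_of_ne h7 h5)
  refine ⟨⟨j, lt_of_le_of_lt h4 hj0⟩, ?_, ?_⟩
  · intro i hi
    have h9 : (i : ℕ) < j := hi
    apply Fin.ext
    show (T i).card = (T' i).card
    rw [h6 i h9]
  · show (⟨(T j).card, _⟩ : Fin _) < ⟨(T' j).card, _⟩
    exact h8

/-- a nonempty family has a member of maximal potential -/
lemma exists_max {S : Type*} (σ0 : S) (L : ℕ) (T : S → ℕ → Finset V) :
    ∃ σ : S, ∀ σ', ¬ pot L (T σ) < pot L (T σ') := by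
  have hwf : WellFounded (fun a b : Lex (Fin L → Fin (Fintype.card V + 1)) => b < a) :=
    wellFounded_gt
  obtain ⟨m, ⟨σ, rfl⟩, hm⟩ := hwf.has_min (Set.range (fun σ => pot L (T σ))) ⟨_, σ0, rfl⟩
  exact ⟨σ, fun σ' h => hm _ ⟨σ', rfl⟩ h⟩

end BHNet.GB
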