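import Mathlib
import Pool.Agent.Lib.MP_3940ed_co.GB.Base

/-!
# Facts about the chain of a state
-/

namespace BHNet.GB

open Classical BHNet

set_option linter.unusedSectionVars false

variable {V A : Type*} [Fintype V] [DecidableEq V] [Fintype A] [DecidableEq A]
variable {D : Net V A} {Sp : Finset A} {s t : V} {p r : ℕ}

@[simp] lemma res_tl_false (a : A) : (res D).tl (a, false) = D.tl a := by simp [res]
@[simp] lemma res_hd_false (a : A) : (res D).hd (a, false) = D.hd a := by simp [res]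
@[simp] lemma res_tl_true (a : A) : (res D).tl (a, true) = D.hd a := by simp [res]
@[simp] lemma res_hd_true (a : A) : (res D).hd (a, true) = D.tl a := by simp [res]

lemma chi_res_false (X : Finset V) (a : A) : chi (res D) X (a, false) = chi D X a := by
  simp [chi]
lemma chi_res_true (X : Finset V) (a : A) : chi (res D) X (a, true) = - chi D X a := by
  simp [chi]

section basic

variable (σ : State D Sp s t p r)

lemma State.mem_N {a : A} : a ∈ σ.N ↔ σ.g a = 0 ∧ (a ∈ Sp ∨ σ.h a = 0) := by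
  simp [State.N]

lemma State.mem_Rg_false {a : A} : (a, false) ∈ σ.Rg ↔ a ∈ σ.N := by
  simp [State.Rg]

lemma State.mem_Rg_true {a : A} : (a, true) ∈ σ.Rg ↔ σ.g a = 1 := by
  simp [State.Rg]

lemma State.mem_Rh_false {Y : Finset V} {a : A} : (a, false) ∈ σ.Rh Y ↔
    a ∈ Sp ∨ (a ∈ σ.N ∧ ¬ (D.tl a ∈ Y ∧ D.hd a ∈ Y)) := by
  simp [State.Rh]

lemma State.mem_Rh_true {Y : Finset V} {a : A} : (a, true) ∈ σ.Rh Y ↔ 1 ≤ σ.h a := by
  simp [State.Rh]

/-- an ordinary arc carries at most one unit of `h` -/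
lemma State.h_le (a : A) (ha : a ∉ Sp) : σ.h a ≤ 1 := by
  have h1 := σ.gh a ha
  rcases σ.g01 a with h2 | h2 <;> omega

lemma State.h_eq (a : A) (ha : a ∉ Sp) (h1 : 1 ≤ σ.h a) : σ.h a = 1 :=
  le_antisymm (σ.h_le a ha) h1

lemma State.g_zero_of_h (a : A) (ha : a ∉ Sp) (h1 : 1 ≤ σ.h a) : σ.g a = 0 := by
  have h2 := σ.gh a ha
  rcases σ.g01 a with h3 | h3 <;> omega

/-- `Y_{n-1}` with `Y_{-1} = ∅` -/
noncomputable def State.Yp : ℕ → Finset V
  | 0 => ∅
  | n + 1 => σ.Y n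

lemma State.Yp_zero : σ.Yp 0 = ∅ := rfl
lemma State.Yp_succ (n : ℕ) : σ.Yp (n + 1) = σ.Y n := rfl

lemma State.W_eq (n : ℕ) : σ.W n = σ.Yp n ∪ σ.B n := by
  cases n with
  | zero => rw [State.Yp_zero, Finset.empty_union]; rfl
  | succ n => rw [State.W_succ, State.Yp_succ]

lemma State.Yp_subset_W (n : ℕ) : σ.Yp n ⊆ σ.W n := by
  rw [State.W_eq]; exact Finset.subset_union_left

lemma State.B_subset_W (n : ℕ) : σ.B n ⊆ σ.W n := by
  rw [State.W_eq]; exact Finset.subset_union_right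

lemma State.W_subset_Y (n : ℕ) : σ.W n ⊆ σ.Y n := subset_back _ _

lemma State.Yp_subset_Y (n : ℕ) : σ.Yp n ⊆ σ.Y n := (σ.Yp_subset_W n).trans (σ.W_subset_Y n)

lemma State.Y_subset_W (n : ℕ) : σ.Y n ⊆ σ.W (n + 1) := by
  rw [State.W_succ]; exact Finset.subset_union_left

lemma State.B_subset_succ (n : ℕ) : σ.B n ⊆ σ.B (n + 1) := by
  rw [State.B_succ]; exact Finset.subset_union_left

lemma State.B_mono {m n : ℕ} (h : m ≤ n) : σ.B m ⊆ σ.B n := by
  induction h with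
  | refl => exact subset_rfl
  | step _ ih => exact ih.trans (σ.B_subset_succ _)

lemma State.Y_subset_succ (n : ℕ) : σ.Y n ⊆ σ.Y (n + 1) :=
  (σ.Y_subset_W n).trans (σ.W_subset_Y (n + 1))

lemma State.Y_mono {m n : ℕ} (h : m ≤ n) : σ.Y m ⊆ σ.Y n := by
  induction h with
  | refl => exact subset_rfl
  | step _ ih => exact ih.trans (σ.Y_subset_succ _)

lemma State.B_subset_Y {m n : ℕ} (h : m ≤ n) : σ.B m ⊆ σ.Y n :=
  ((σ.B_subset_W m).trans (σ.W_subset_Y m)).trans (σ.Y_mono h)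

lemma State.Y_subset_Yp {m n : ℕ} (h : m < n) : σ.Y m ⊆ σ.Yp n := by
  cases n with
  | zero => omega
  | succ n => rw [State.Yp_succ]; exact σ.Y_mono (by omega)

lemma State.Yp_mono {m n : ℕ} (h : m ≤ n) : σ.Yp m ⊆ σ.Yp n := by
  cases m with
  | zero => rw [State.Yp_zero]; exact Finset.empty_subset _
  | succ m => rw [State.Yp_succ]; exact σ.Y_subset_Yp h

lemma State.t_mem_B (n : ℕ) : t ∈ σ.B n := by
  apply σ.B_mono (Nat.zero_le n)
  rw [State.B_zero]
  exact subset_back _ _ (Finset.mem_singleton_self t)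

lemma State.t_mem_W (n : ℕ) : t ∈ σ.W n := σ.B_subset_W n (σ.t_mem_B n)
lemma State.t_mem_Y (n : ℕ) : t ∈ σ.Y n := σ.W_subset_Y n (σ.t_mem_W n)

lemma State.Rh_anti {Y Y' : Finset V} (h : Y ⊆ Y') : σ.Rh Y' ⊆ σ.Rh Y := by
  rintro ⟨a, b⟩ hx
  cases b with
  | false =>
    rw [State.mem_Rh_false] at hx ⊢
    rcases hx with hx | ⟨h1, h2⟩
    · exact Or.inl hx
    · exact Or.inr ⟨h1, fun h3 => h2 ⟨h h3.1, h h3.2⟩⟩
  | true =>
    rw [State.mem_Rh_true] at hx ⊢
    exact hx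

lemma Cl.mono {R R' : Finset (A × Bool)} {T : Finset V} (h : R ⊆ R') (hT : Cl D R' T) :
    Cl D R T := fun x hx hh => hT x (h hx) hh

lemma Cl.union {R : Finset (A × Bool)} {T T' : Finset V} (h1 : Cl D R T) (h2 : Cl D R T') :
    Cl D R (T ∪ T') := by
  intro x hx hh
  rw [Finset.mem_union] at hh ⊢
  rcases hh with hh | hh
  · exact Or.inl (h1 x hx hh)
  · exact Or.inr (h2 x hx hh)

/-- `Y_{n-1}` is closed for `g` -/
lemma State.Yp_closed (n : ℕ) : Cl D σ.Rg (σ.Yp n) := by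
  cases n with
  | zero => intro x _ hh; rw [State.Yp_zero] at hh; simp at hh
  | succ n => exact back_closed _ _

lemma State.Y_closed (n : ℕ) : Cl D σ.Rg (σ.Y n) := back_closed _ _

/-- `B_n` is closed for `h` (without the unused ordinary arcs inside `Y_{n-1}`) -/
lemma State.B_closed (n : ℕ) : Cl D (σ.Rh (σ.Yp n)) (σ.B n) := by
  induction n with
  | zero => exact back_closed _ _
  | succ n ih =>
    rw [State.B_succ, State.Yp_succ]
    exact Cl.union (Cl.mono (σ.Rh_anti (σ.Yp_subset_Y n)) ih) (back_closed _ _)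

/-- closedness of `B_k` for larger excluded sets -/
lemma State.B_closed' {k : ℕ} {Y : Finset V} (h : σ.Yp k ⊆ Y) : Cl D (σ.Rh Y) (σ.B k) :=
  Cl.mono (σ.Rh_anti h) (σ.B_closed k)

end basic

section facts

variable (σ : State D Sp s t p r)

/-- no special arc enters `B_n` -/
lemma State.B_special {n : ℕ} {a : A} (ha : a ∈ Sp) (h : D.hd a ∈ σ.B n) : D.tl a ∈ σ.B n := by
  have := σ.B_closed n (a, false) (σ.mem_Rh_false.mpr (Or.inl ha)) (by simpa using h)
  simpa using this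

/-- `h` never leaves `B_n` -/
lemma State.B_h {n : ℕ} {a : A} (ha : 1 ≤ σ.h a) (h : D.tl a ∈ σ.B n) : D.hd a ∈ σ.B n := by
  have := σ.B_closed n (a, true) (σ.mem_Rh_true.mpr ha) (by simpa using h)
  simpa using this

/-- an unused arc entering `B_n` lies inside `Y_{n-1}` -/
lemma State.B_N {n : ℕ} {a : A} (ha : a ∈ σ.N) (h : D.hd a ∈ σ.B n) (h2 : D.tl a ∉ σ.B n) :
    D.tl a ∈ σ.Yp n ∧ D.hd a ∈ σ.Yp n := by
  by_contra h3
  have := σ.B_closed n (a, false) (σ.mem_Rh_false.mpr (Or.inr ⟨ha, h3⟩)) (by simpa using h)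
  exact h2 (by simpa using this)

lemma State.Yp_N {n : ℕ} {a : A} (ha : a ∈ σ.N) (h : D.hd a ∈ σ.Yp n) : D.tl a ∈ σ.Yp n := by
  have := σ.Yp_closed n (a, false) (σ.mem_Rg_false.mpr ha) (by simpa using h)
  simpa using this

lemma State.Yp_g {n : ℕ} {a : A} (ha : σ.g a = 1) (h : D.tl a ∈ σ.Yp n) : D.hd a ∈ σ.Yp n := by
  have := σ.Yp_closed n (a, true) (σ.mem_Rg_true.mpr ha) (by simpa using h)
  simpa using this

lemma State.Y_N {n : ℕ} {a : A} (ha : a ∈ σ.N) (h : D.hd a ∈ σ.Y n) : D.tl a ∈ σ.Y n := by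
  have := σ.Y_closed n (a, false) (σ.mem_Rg_false.mpr ha) (by simpa using h)
  simpa using this

lemma State.Y_g {n : ℕ} {a : A} (ha : σ.g a = 1) (h : D.tl a ∈ σ.Y n) : D.hd a ∈ σ.Y n := by
  have := σ.Y_closed n (a, true) (σ.mem_Rg_true.mpr ha) (by simpa using h)
  simpa using this

/-- no unused arc enters `W_n` -/
lemma State.W_N {n : ℕ} {a : A} (ha : a ∈ σ.N) (h : D.hd a ∈ σ.W n) : D.tl a ∈ σ.W n := by
  rw [State.W_eq, Finset.mem_union] at h ⊢
  rcases h with h | h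
  · exact Or.inl (σ.Yp_N ha h)
  · by_cases h2 : D.tl a ∈ σ.B n
    · exact Or.inr h2
    · exact Or.inl (σ.B_N ha h h2).1

/-- an ordinary `h`-arc entering `W_n` has its head in `B_n` -/
lemma State.W_h {n : ℕ} {a : A} (ha : a ∉ Sp) (hh : 1 ≤ σ.h a) (h1 : D.hd a ∈ σ.W n)
    (h2 : D.tl a ∉ σ.W n) : D.hd a ∈ σ.B n := by
  rw [State.W_eq, Finset.mem_union] at h1
  rcases h1 with h1 | h1
  · cases n with
    | zero => rw [State.Yp_zero] at h1; simp at h1
    | succ n =>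
      rw [State.Yp_succ] at h1
      rw [State.B_succ, Finset.mem_union]
      right
      apply subset_back
      unfold State.hds
      rw [Finset.mem_image]
      refine ⟨a, ?_, rfl⟩
      rw [Finset.mem_filter]
      exact ⟨Finset.mem_univ _, ha, σ.h_eq a ha hh, fun h3 => h2 (σ.Y_subset_W n h3), h1⟩
  · exact h1

/-- `g` leaves `W_n` only from `B_n \ Y_{n-1}` -/
lemma State.W_g {n : ℕ} {a : A} (ha : σ.g a = 1) (h1 : D.tl a ∈ σ.W n) (h2 : D.hd a ∉ σ.W n) :
    D.tl a ∈ σ.B n ∧ D.tl a ∉ σ.Yp n := by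
  have h3 : D.tl a ∉ σ.Yp n := fun h4 => h2 (σ.Yp_subset_W n (σ.Yp_g ha h4))
  rw [State.W_eq, Finset.mem_union] at h1
  exact ⟨h1.resolve_left h3, h3⟩

end facts

section counting

variable (σ : State D Sp s t p r)

/-- if `h` does not leave `X`, then the entering arcs carry at most `r` units -/
lemma State.h_enter_eq {X : Finset V} (ht : t ∈ X) (hs : s ∉ X)
    (hX : ∀ a, 1 ≤ σ.h a → D.tl a ∈ X → D.hd a ∈ X) :
    ∑ a ∈ D.ent Finset.univ X, σ.h a = r := by
  have h1 := σ.fh X hs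
  rw [nt_eq, if_pos ht] at h1
  have h2 : ∑ a ∈ D.out Finset.univ X, σ.h a = 0 := by
    apply Finset.sum_eq_zero
    intro a ha
    rw [Net.mem_out] at ha
    have h3 := σ.h0 a
    by_contra h4
    exact ha.2.2 (hX a (by omega) ha.2.1)
  omega

/-- if `g` does not leave `X`, then exactly `p` units enter -/
lemma State.g_enter_eq {X : Finset V} (ht : t ∈ X) (hs : s ∉ X)
    (hX : ∀ a, σ.g a = 1 → D.tl a ∈ X → D.hd a ∈ X) :
    ∑ a ∈ D.ent Finset.univ X, σ.g a = p := by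
  have h1 := σ.fg X hs
  rw [nt_eq, if_pos ht] at h1
  have h2 : ∑ a ∈ D.out Finset.univ X, σ.g a = 0 := by
    apply Finset.sum_eq_zero
    intro a ha
    rw [Net.mem_out] at ha
    rcases σ.g01 a with h3 | h3
    · exact h3
    · exact absurd (hX a h3 ha.2.1) ha.2.2
  omega

/-- if `g` leaves `X` then it also enters `X` -/
lemma State.g_enter_of_leave {X : Finset V} (hs : s ∉ X) {e : A} (he : σ.g e = 1)
    (h1 : D.tl e ∈ X) (h2 : D.hd e ∉ X) : ∃ a, σ.g a = 1 ∧ D.tl a ∉ X ∧ D.hd a ∈ X := by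
  by_contra hcon
  push Not at hcon
  have h3 := σ.fg X hs
  rw [nt_eq] at h3
  have h4 : ∑ a ∈ D.ent Finset.univ X, σ.g a = 0 := by
    apply Finset.sum_eq_zero
    intro a ha
    rw [Net.mem_ent] at ha
    rcases σ.g01 a with h5 | h5
    · exact h5
    · exact absurd ha.2.2 (hcon a h5 ha.2.1)
  have h5 : σ.g e ≤ ∑ a ∈ D.out Finset.univ X, σ.g a := by
    apply Finset.single_le_sum (f := σ.g)
    · intro a _
      rcases σ.g01 a with h6 | h6 <;> omega
    · rw [Net.mem_out]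
      exact ⟨Finset.mem_univ _, h1, h2⟩
  split_ifs at h3 <;> omega

/-- the same for `h` -/
lemma State.h_enter_of_leave {X : Finset V} (hs : s ∉ X) {e : A} (he : 1 ≤ σ.h e)
    (h1 : D.tl e ∈ X) (h2 : D.hd e ∉ X) : ∃ a, 1 ≤ σ.h a ∧ D.tl a ∉ X ∧ D.hd a ∈ X := by
  by_contra hcon
  push Not at hcon
  have h3 := σ.fh X hs
  rw [nt_eq] at h3
  have h4 : ∑ a ∈ D.ent Finset.univ X, σ.h a = 0 := by
    apply Finset.sum_eq_zero
    intro a ha
    rw [Net.mem_ent] at ha
    have h5 := σ.h0 a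
    by_contra h6
    exact hcon a (by omega) ha.2.1 ha.2.2
  have h5 : σ.h e ≤ ∑ a ∈ D.out Finset.univ X, σ.h a := by
    apply Finset.single_le_sum (f := σ.h)
    · intro a _
      exact σ.h0 a
    · rw [Net.mem_out]
      exact ⟨Finset.mem_univ _, h1, h2⟩
  split_ifs at h3 <;> omega

/-- the amount of `h` on the ordinary arcs entering `X` -/
noncomputable def State.hO (X : Finset V) : ℤ :=
  ∑ a ∈ (D.ent Finset.univ X).filter (fun a => a ∉ Sp), σ.h a

/-- The cut condition at a set that is entered by no unused arc and not left by `g`. -/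
lemma State.cut_count {N : ℕ} (hcut : ∀ Z : Finset V, t ∈ Z → s ∉ Z → (D.ent Sp Z).card < p →
      N ≤ (D.ent Finset.univ Z).card) {X : Finset V} (ht : t ∈ X) (hs : s ∉ X)
    (hN : ∀ a ∈ σ.N, D.hd a ∈ X → D.tl a ∈ X)
    (hg : ∀ a, σ.g a = 1 → D.tl a ∈ X → D.hd a ∈ X)
    (hSp : (D.ent Sp X).card < p) : (N : ℤ) ≤ p + σ.hO X := by
  have h1 := hcut X ht hs hSp
  have h2 := σ.g_enter_eq ht hs hg
  have h3 : ((D.ent Finset.univ X).card : ℤ) = ∑ a ∈ D.ent Finset.univ X, σ.g a + σ.hO X := by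
    unfold State.hO
    rw [Finset.sum_filter, ← Finset.sum_add_distrib, Finset.card_eq_sum_ones]
    push_cast
    apply Finset.sum_congr rfl
    intro a ha
    rw [Net.mem_ent] at ha
    have h4 : a ∉ σ.N := fun h5 => ha.2.1 (hN a h5 ha.2.2)
    rw [State.mem_N] at h4
    push Not at h4
    by_cases h5 : a ∈ Sp
    · rw [if_neg (by simpa using h5)]
      rcases σ.g01 a with h6 | h6
      · exact absurd h5 (h4 h6).1
      · omega
    · rw [if_pos h5]
      rcases σ.g01 a with h6 | h6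
      · have h7 := (h4 h6).2
        have h8 := σ.h0 a
        have h9 := σ.h_le a h5
        omega
      · have h7 := σ.gh a h5
        have h8 := σ.h0 a
        omega
  omega

/-- an ordinary `g`-arc entering makes the number of special arcs small -/
lemma State.special_lt {X : Finset V} (ht : t ∈ X) (hs : s ∉ X)
    (hN : ∀ a ∈ σ.N, D.hd a ∈ X → D.tl a ∈ X)
    (hg : ∀ a, σ.g a = 1 → D.tl a ∈ X → D.hd a ∈ X)
    {e : A} (he : e ∉ Sp) (heg : σ.g e = 1) (h1 : D.tl e ∉ X) (h2 : D.hd e ∈ X) :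
    (D.ent Sp X).card < p := by
  have h3 := σ.g_enter_eq ht hs hg
  have h4 : ((D.ent Sp X).card : ℤ) = ∑ a ∈ D.ent Sp X, σ.g a := by
    rw [Finset.card_eq_sum_ones]
    push_cast
    apply Finset.sum_congr rfl
    intro a ha
    rw [Net.mem_ent] at ha
    have h4 : a ∉ σ.N := fun h5 => ha.2.1 (hN a h5 ha.2.2)
    rw [State.mem_N] at h4
    push Not at h4
    rcases σ.g01 a with h6 | h6
    · exact absurd ha.1 (h4 h6).1
    · omega
  have h5 : ∑ a ∈ insert e (D.ent Sp X), σ.g a ≤ ∑ a ∈ D.ent Finset.univ X, σ.g a := by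
    apply Finset.sum_le_sum_of_subset_of_nonneg
    · intro a ha
      rw [Finset.mem_insert] at ha
      rw [Net.mem_ent]
      rcases ha with rfl | ha
      · exact ⟨Finset.mem_univ _, h1, h2⟩
      · rw [Net.mem_ent] at ha
        exact ⟨Finset.mem_univ _, ha.2⟩
    · intro a _ _
      rcases σ.g01 a with h6 | h6 <;> omega
  rw [Finset.sum_insert (fun h6 => he (Net.mem_ent.mp h6).1)] at h5
  omega

/-- the ordinary arcs entering `W_n` carry at most `r` units of `h` -/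
lemma State.hO_le {n : ℕ} (hs : s ∉ σ.B n) : σ.hO (σ.W n) ≤ r := by
  have h1 := σ.h_enter_eq (σ.t_mem_B n) hs (fun a ha => σ.B_h ha)
  rw [← h1]
  unfold State.hO
  have h2 : ∑ a ∈ (D.ent Finset.univ (σ.W n)).filter (fun a => a ∉ Sp), σ.h a
      = ∑ a ∈ ((D.ent Finset.univ (σ.W n)).filter (fun a => a ∉ Sp)).filter
        (fun a => σ.h a ≠ 0), σ.h a := (Finset.sum_filter_ne_zero _).symm
  rw [h2]
  apply Finset.sum_le_sum_of_subset_of_nonneg
  · intro a ha
    rw [Finset.mem_filter, Finset.mem_filter, Net.mem_ent] at ha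
    obtain ⟨⟨⟨-, h3, h4⟩, h5⟩, h6⟩ := ha
    rw [Net.mem_ent]
    have h7 := σ.h0 a
    refine ⟨Finset.mem_univ _, fun h8 => h3 (σ.B_subset_W n h8), ?_⟩
    exact σ.W_h h5 (by omega) h4 h3
  · intro a _ _
    exact σ.h0 a

end counting

end BHNet.GB
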