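import Mathlib
import Pool.Agent.Lib.MP_3940ed_co.GB.Base
import Pool.Agent.Lib.MP_3940ed_co.GB.Facts

/-!
# Step B: an ordinary `g`-arc enters `Y`, or a residual cycle of `g` exists
-/

namespace BHNet.GB

open Classical BHNet

set_option linter.unusedSectionVars false

variable {V A : Type*} [Fintype V] [DecidableEq V] [Fintype A] [DecidableEq A]
variable {D : Net V A}

/-- if a `0/1`-flow leaves `X` and its net amount at `X` is not negative, it enters `X` -/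
lemma enter_of_leave {f : A → ℤ} (f01 : ∀ a, f a = 0 ∨ f a = 1) {X : Finset V}
    (h : 0 ≤ nt D f X) {e : A} (he : f e = 1) (h1 : D.tl e ∈ X) (h2 : D.hd e ∉ X) :
    ∃ a, f a = 1 ∧ D.tl a ∉ X ∧ D.hd a ∈ X := by
  by_contra hcon
  push Not at hcon
  have h3 : nt D f X < 0 := by
    unfold nt
    have h4 : ∑ a, f a * chi D X a < ∑ a : A, (0 : ℤ) := by
      apply Finset.sum_lt_sum
      · intro a _
        rcases f01 a with h5 | h5
        · simp [h5]
        · rw [h5, one_mul]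
          have h6 := hcon a h5
          unfold chi
          by_cases h7 : D.tl a ∈ X
          · by_cases h8 : D.hd a ∈ X <;> simp [h7, h8]
          · simp [h7, h6 h7]
      · exact ⟨e, Finset.mem_univ _, by rw [he, one_mul, chi_leave h1 h2]; norm_num⟩
    simpa using h4
  omega

/-- residual arcs of a `0/1`-flow `f`, where the arcs of `N` may be used -/
noncomputable def Rgen (f : A → ℤ) (N : Finset A) : Finset (A × Bool) :=
  Finset.univ.filter (fun x => (x.2 = false ∧ x.1 ∈ N) ∨ (x.2 = true ∧ f x.1 = 1))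

lemma State.Rg_eq {Sp : Finset A} {s t : V} {p r : ℕ} (σ : State D Sp s t p r) :
    σ.Rg = Rgen σ.g σ.N := rfl

/-- reversed `f`-arcs and `N`-arcs with both ends outside `W` -/
noncomputable def Rst (D : Net V A) (f : A → ℤ) (N : Finset A) (W : Finset V) :
    Finset (A × Bool) :=
  Finset.univ.filter (fun x => (x.2 = true ∧ f x.1 = 1) ∨
    (x.2 = false ∧ x.1 ∈ N ∧ D.tl x.1 ∉ W ∧ D.hd x.1 ∉ W))

lemma mem_Rst {f : A → ℤ} {N : Finset A} {W : Finset V} {x : A × Bool} :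
    x ∈ Rst D f N W ↔ (x.2 = true ∧ f x.1 = 1) ∨
      (x.2 = false ∧ x.1 ∈ N ∧ D.tl x.1 ∉ W ∧ D.hd x.1 ∉ W) := by
  simp [Rst]

lemma mem_Rgen {f : A → ℤ} {N : Finset A} {x : A × Bool} :
    x ∈ Rgen f N ↔ (x.2 = false ∧ x.1 ∈ N) ∨ (x.2 = true ∧ f x.1 = 1) := by
  simp [Rgen]

/-- a walk from outside `T` into `T` uses an arc entering `T` -/
lemma reach_cross {R : Finset (A × Bool)} {T : Finset V} {u v : V}
    (h : (res D).Reach R u v) (hu : u ∉ T) (hv : v ∈ T) :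
    ∃ x ∈ R, (res D).tl x ∉ T ∧ (res D).hd x ∈ T := by
  unfold Net.Reach at h
  induction h with
  | refl => exact absurd hv hu
  | @tail b c h1 h2 ih =>
    obtain ⟨x, hx, rfl, rfl⟩ := h2
    by_cases hb : (res D).tl x ∈ T
    · exact ih hb
    · exact ⟨x, hx, hb, hv⟩

/-- the vertices reachable from `u` along `R` -/
noncomputable def fwd (D : Net V A) (R : Finset (A × Bool)) (u : V) : Finset V :=
  Finset.univ.filter (fun v => (res D).Reach R u v)

lemma mem_fwd {R : Finset (A × Bool)} {u v : V} : v ∈ fwd D R u ↔ (res D).Reach R u v := by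
  simp [fwd]

lemma fwd_closed {R : Finset (A × Bool)} {u : V} {x : A × Bool} (hx : x ∈ R)
    (h : (res D).tl x ∈ fwd D R u) : (res D).hd x ∈ fwd D R u := by
  rw [mem_fwd] at h ⊢
  exact Relation.ReflTransGen.tail h ⟨x, hx, rfl, rfl⟩

/-- **Step B.** `W` is entered by no arc of `N`, `f` does not leave `Yp ⊆ W` but leaves `W`, and the
`f`-arcs from outside `W` into `W \ Yp` are ordinary. Then one of them starts outside
`back (Rgen f N) W`, or there is a residual cycle freeing one of them, avoiding `Yp` and using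
only arcs of `N` outside `W`. -/
theorem stepB_abs {f : A → ℤ} (f01 : ∀ a, f a = 0 ∨ f a = 1) {N : Finset A} {Sp : Finset A}
    {W Yp : Finset V} {s : V} (hf : ∀ X : Finset V, s ∉ X → 0 ≤ nt D f X)
    (hYW : Yp ⊆ W) (hs : s ∉ W)
    (h1 : ∀ a ∈ N, D.hd a ∈ W → D.tl a ∈ W)
    (h2 : ∀ a, f a = 1 → D.tl a ∈ Yp → D.hd a ∈ Yp)
    (h4 : ∃ a, f a = 1 ∧ D.tl a ∈ W ∧ D.hd a ∉ W)
    (h5 : ∀ a, f a = 1 → D.tl a ∉ W → D.hd a ∈ W \ Yp → a ∉ Sp) :
    (∃ a, a ∉ Sp ∧ f a = 1 ∧ D.tl a ∉ back D (Rgen f N) W ∧ D.hd a ∈ W \ Yp) ∨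
    ∃ e : A, e ∉ Sp ∧ f e = 1 ∧ D.tl e ∉ W ∧ D.hd e ∈ W \ Yp ∧
      D.tl e ∈ back D (Rst D f N W) {D.hd e} := by
  -- a set `X ⊆ W \ Yp` which `f` leaves is entered from outside
  have key : ∀ X : Finset V, X ⊆ W \ Yp → (∃ e, f e = 1 ∧ D.tl e ∈ X ∧ D.hd e ∉ X) →
      ∃ a, f a = 1 ∧ D.tl a ∉ X ∧ D.hd a ∈ X ∧ D.tl a ∉ Yp := by
    intro X hX ⟨e, he, he1, he2⟩
    have hsX : s ∉ X := fun h => hs (Finset.mem_sdiff.mp (hX h)).1
    obtain ⟨a, ha, ha1, ha2⟩ := enter_of_leave f01 (hf X hsX) he he1 he2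
    exact ⟨a, ha, ha1, ha2, fun h => (Finset.mem_sdiff.mp (hX ha2)).2 (h2 a ha h)⟩
  set S : Finset A := Finset.univ.filter (fun a => f a = 1 ∧ D.tl a ∉ W ∧ D.hd a ∈ W \ Yp)
    with hS
  have hSne : S.Nonempty := by
    obtain ⟨e, he, he1, he2⟩ := h4
    have he3 : D.tl e ∉ Yp := fun h => he2 (hYW (h2 e he h))
    obtain ⟨a, ha, ha1, ha2, ha3⟩ := key (W \ Yp) subset_rfl
      ⟨e, he, Finset.mem_sdiff.mpr ⟨he1, he3⟩, fun h => he2 (Finset.mem_sdiff.mp h).1⟩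
    refine ⟨a, ?_⟩
    rw [hS, Finset.mem_filter]
    refine ⟨Finset.mem_univ _, ha, fun h => ha1 (Finset.mem_sdiff.mpr ⟨h, ha3⟩), ha2⟩
  by_cases hgood : ∃ a ∈ S, D.tl a ∉ back D (Rgen f N) W
  · left
    obtain ⟨a, ha, ha1⟩ := hgood
    rw [hS, Finset.mem_filter] at ha
    exact ⟨a, h5 a ha.2.1 ha.2.2.1 ha.2.2.2, ha.2.1, ha1, ha.2.2.2⟩
  · right
    push Not at hgood
    obtain ⟨a0, ha0, hmin⟩ := Finset.exists_min_image S
      (fun a => (fwd D (Rst D f N W) (D.tl a)).card) hSne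
    have hb := hgood a0 ha0
    rw [hS, Finset.mem_filter] at ha0
    obtain ⟨-, ha01, ha02, ha03⟩ := ha0
    set P := fwd D (Rst D f N W) (D.tl a0) with hP
    -- the walk from `tl a0` to `W`
    unfold back at hb
    rw [Finset.mem_filter] at hb
    obtain ⟨-, u, huW, hu⟩ := hb
    have htP : D.tl a0 ∈ P := by rw [hP, mem_fwd]; exact Relation.ReflTransGen.refl
    have h6 : D.tl a0 ∉ (P \ W)ᶜ := by
      simp [htP, ha02]
    have h7 : u ∈ (P \ W)ᶜ := by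
      simp [huW]
    obtain ⟨x, hx, hx1, hx2⟩ := reach_cross hu h6 h7
    rw [Finset.mem_compl, not_not, Finset.mem_sdiff] at hx1
    rw [mem_Rgen] at hx
    have hxW : (res D).hd x ∈ W := by
      by_contra hh
      have hxR : x ∈ Rst D f N W := by
        rw [mem_Rst]
        rcases hx with ⟨hx3, hx4⟩ | ⟨hx3, hx4⟩
        · right
          refine ⟨hx3, hx4, ?_, ?_⟩
          · have := hx1.2
            simpa [res, hx3] using this
          · simpa [res, hx3] using hh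
        · exact Or.inl ⟨hx3, hx4⟩
      have := fwd_closed hxR (hP ▸ hx1.1)
      rw [Finset.mem_compl, Finset.mem_sdiff] at hx2
      exact hx2 ⟨this, hh⟩
    have hx5 : x.2 = true ∧ f x.1 = 1 := by
      rcases hx with ⟨hx3, hx4⟩ | hx3
      · exfalso
        have h8 : D.hd x.1 ∈ W := by simpa [res, hx3] using hxW
        have h9 : D.tl x.1 ∉ W := by simpa [res, hx3] using hx1.2
        exact h9 (h1 x.1 hx4 h8)
      · exact hx3
    have hxR : x ∈ Rst D f N W := by rw [mem_Rst]; exact Or.inl hx5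
    have hxP : (res D).hd x ∈ P := fwd_closed hxR (hP ▸ hx1.1)
    have e1 : D.tl x.1 ∈ W := by simpa [res, hx5.1] using hxW
    have e2 : D.hd x.1 ∉ W := by simpa [res, hx5.1] using hx1.2
    have e3 : D.tl x.1 ∈ P := by simpa [res, hx5.1] using hxP
    have e4 : D.tl x.1 ∉ Yp := fun h => e2 (hYW (h2 _ hx5.2 h))
    obtain ⟨a, ha, ha1, ha2, ha3⟩ := key (P ∩ (W \ Yp)) Finset.inter_subset_right
      ⟨x.1, hx5.2, by simp [e1, e3, e4], by simp [e2]⟩
    rw [Finset.mem_inter] at ha2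
    have haR : (a, true) ∈ Rst D f N W := by rw [mem_Rst]; exact Or.inl ⟨rfl, ha⟩
    have haP : D.tl a ∈ P := by
      have : (res D).hd (a, true) ∈ P := fwd_closed haR (by simpa [res] using ha2.1)
      simpa [res] using this
    have haW : D.tl a ∉ W := by
      intro h
      exact ha1 (by simp [haP, h, ha3])
    have haS : a ∈ S := by
      rw [hS, Finset.mem_filter]
      exact ⟨Finset.mem_univ _, ha, haW, ha2.2⟩
    have hsub : fwd D (Rst D f N W) (D.tl a) ⊆ P := by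
      intro v hv
      rw [mem_fwd] at hv
      rw [hP, mem_fwd] at haP ⊢
      exact Relation.ReflTransGen.trans haP hv
    have heq : fwd D (Rst D f N W) (D.tl a) = P :=
      Finset.eq_of_subset_of_card_le hsub (hmin a haS)
    have hback : (res D).hd (a, true) ∈ back D (Rst D f N W) {(res D).tl (a, true)} := by
      rw [mem_back_single]
      have h8 : D.hd a ∈ fwd D (Rst D f N W) (D.tl a) := by rw [heq]; exact ha2.1
      rw [mem_fwd] at h8
      simpa [res] using h8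
    refine ⟨a, h5 a ha haW ha2.2, ha, haW, ha2.2, ?_⟩
    simpa [res] using hback

/-- **Step B'.** -/
lemma s_notin_of_enter {f : A → ℤ} (f01 : ∀ a, f a = 0 ∨ f a = 1) {s : V}
    (hf : ∀ X : Finset V, s ∉ X → 0 ≤ nt D f X) {Y : Finset V}
    (h2 : ∀ a, f a = 1 → D.tl a ∈ Y → D.hd a ∈ Y)
    (h3 : ∃ a, f a = 1 ∧ D.tl a ∉ Y ∧ D.hd a ∈ Y) : s ∉ Y := by
  intro hs
  obtain ⟨a, ha, ha1, ha2⟩ := h3
  obtain ⟨b, hb, hb1, hb2⟩ := enter_of_leave (X := Yᶜ) f01 (hf _ (by simpa using hs)) ha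
    (by simpa using ha1) (by simpa using ha2)
  rw [Finset.mem_compl, not_not] at hb1
  rw [Finset.mem_compl] at hb2
  exact hb2 (h2 b hb hb1)

/-- reversed `g`-arcs and unused arcs with both ends outside `W` -/
noncomputable def Rstar {Sp : Finset A} {s t : V} {p r : ℕ} (σ : State D Sp s t p r)
    (W : Finset V) : Finset (A × Bool) :=
  σ.Rg.filter (fun x => x.2 = true ∨ (D.tl x.1 ∉ W ∧ D.hd x.1 ∉ W))

lemma Rst_eq_Rstar {Sp : Finset A} {s t : V} {p r : ℕ} (σ : State D Sp s t p r)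
    (W : Finset V) : Rst D σ.g σ.N W = Rstar σ W := by
  ext x
  rw [mem_Rst, Rstar, State.Rg_eq, Finset.mem_filter, mem_Rgen]
  constructor
  · rintro (⟨h1, h2⟩ | ⟨h1, h2, h3, h4⟩)
    · exact ⟨Or.inr ⟨h1, h2⟩, Or.inl h1⟩
    · exact ⟨Or.inl ⟨h1, h2⟩, Or.inr ⟨h3, h4⟩⟩
  · rintro ⟨h1 | h1, h2 | h2⟩
    · rw [h1.1] at h2; exact absurd h2 (by simp)
    · exact Or.inr ⟨h1.1, h1.2, h2.1, h2.2⟩
    · exact Or.inl h1
    · exact Or.inl h1

/-- **Step B** for a state. -/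
lemma stepB {Sp : Finset A} {s t : V} {p r : ℕ} (σ : State D Sp s t p r) (n : ℕ)
    (hs : s ∉ σ.W n) (hleave : ∃ a, σ.g a = 1 ∧ D.tl a ∈ σ.W n ∧ D.hd a ∉ σ.W n) :
    (∃ e, e ∉ Sp ∧ σ.g e = 1 ∧ D.tl e ∉ σ.Y n ∧ D.hd e ∈ σ.W n) ∨
    (∃ e, e ∉ Sp ∧ σ.g e = 1 ∧ D.tl e ∉ σ.W n ∧ D.hd e ∈ σ.B n ∧ D.hd e ∉ σ.Yp n ∧
      D.tl e ∈ back D (Rstar σ (σ.W n)) {D.hd e}) := by
  have hBn : ∀ v, v ∈ σ.W n \ σ.Yp n → v ∈ σ.B n ∧ v ∉ σ.Yp n := by
    intro v hv
    rw [Finset.mem_sdiff, State.W_eq, Finset.mem_union] at hv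
    exact ⟨hv.1.resolve_left hv.2, hv.2⟩
  rcases stepB_abs (f := σ.g) σ.g01 (N := σ.N) (Sp := Sp) (W := σ.W n) (Yp := σ.Yp n) (s := s)
    (fun X hX => by rw [σ.fg X hX]; split_ifs <;> omega)
    (σ.Yp_subset_W n) hs (fun a ha h => σ.W_N ha h) (fun a ha h => σ.Yp_g ha h) hleave
    (fun a _ h1 h2 h3 => h1 (σ.B_subset_W n (σ.B_special h3 (hBn _ h2).1))) with h | h
  · left
    obtain ⟨e, h1, h2, h3, h4⟩ := h
    exact ⟨e, h1, h2, h3, (Finset.mem_sdiff.mp h4).1⟩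
  · right
    obtain ⟨e, h1, h2, h3, h4, h5⟩ := h
    refine ⟨e, h1, h2, h3, (hBn _ h4).1, (hBn _ h4).2, ?_⟩
    rw [← Rst_eq_Rstar]
    exact h5

end BHNet.GB
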