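import Mathlib
import Pool.Agent.Lib.MP_3940ed_co.GB.StepB
import Pool.Agent.Lib.MP_3940ed_co.GB.Lex

/-!
# The improvement by a cycle of the complete flow

Pushing the complete flow around a residual cycle which uses unused arcs outside `W n` only and frees
an ordinary arc entering `B n` raises the potential.
-/

namespace BHNet.GB

open Classical BHNet

set_option linter.unusedSectionVars false

variable {V A : Type*} [Fintype V] [DecidableEq V] [Fintype A] [DecidableEq A]
variable {D : Net V A} {Sp : Finset A} {s t : V} {p r : ℕ}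

namespace ImprB

lemma B_sub_W (σ : State D Sp s t p r) (n : ℕ) : σ.B n ⊆ σ.W n := by
  cases n with
  | zero => exact subset_of_eq rfl
  | succ n => rw [σ.W_succ]; exact Finset.subset_union_right

lemma W_sub_Y (σ : State D Sp s t p r) (n : ℕ) : σ.W n ⊆ σ.Y n := subset_back _ _

lemma Y_sub_W (σ : State D Sp s t p r) (n : ℕ) : σ.Y n ⊆ σ.W (n + 1) := by
  rw [σ.W_succ]; exact Finset.subset_union_left

lemma W_mono (σ : State D Sp s t p r) {m n : ℕ} (h : m ≤ n) : σ.W m ⊆ σ.W n := by
  induction h with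
  | refl => exact Finset.Subset.refl _
  | step _ ih => exact ih.trans ((W_sub_Y σ _).trans (Y_sub_W σ _))

lemma seq_even (σ : State D Sp s t p r) (k : ℕ) : σ.seq (2 * k) = σ.B k := by
  unfold State.seq
  rw [if_pos (by omega), show 2 * k / 2 = k by omega]

lemma seq_odd (σ : State D Sp s t p r) (k : ℕ) : σ.seq (2 * k + 1) = σ.Y k := by
  unfold State.seq
  rw [if_neg (by omega), show (2 * k + 1) / 2 = k by omega]

variable {σ σ' : State D Sp s t p r} {n : ℕ} {C : Finset (A × Bool)}

/-- the sets `W` are determined by the sequence -/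
lemma W_eq (k : ℕ) (h : ∀ i < 2 * k + 1, σ.seq i = σ'.seq i) : σ.W k = σ'.W k := by
  have hB : σ.B k = σ'.B k := by
    have := h (2 * k) (by omega)
    rwa [seq_even, seq_even] at this
  cases k with
  | zero => exact hB
  | succ m =>
    have hY : σ.Y m = σ'.Y m := by
      have := h (2 * m + 1) (by omega)
      rwa [seq_odd, seq_odd] at this
    rw [σ.W_succ, σ'.W_succ, hB, hY]

lemma hds_eq (hh : ∀ a, σ'.h a = σ.h a) (Y : Finset V) : σ'.hds Y = σ.hds Y := by
  unfold State.hds
  congr 1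
  apply Finset.filter_congr
  intro a _
  rw [hh a]

/-- an unused arc with an end in `W n` stays unused -/
lemma N_of (hh : ∀ a, σ'.h a = σ.h a)
    (hg : ∀ a, σ'.g a = if (a, false) ∈ C then 1 else if (a, true) ∈ C then 0 else σ.g a)
    {a : A} (ha : a ∈ σ.N) (hC : (a, false) ∉ C) : a ∈ σ'.N := by
  unfold State.N at ha ⊢
  rw [Finset.mem_filter] at ha ⊢
  refine ⟨Finset.mem_univ _, ?_, ?_⟩
  · rw [hg a, if_neg hC]
    split_ifs
    · rfl
    · exact ha.2.1
  · rw [hh a]; exact ha.2.2

/-- the residual arcs of `h` inside `W n` stay -/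
lemma Rh_of (hh : ∀ a, σ'.h a = σ.h a)
    (hg : ∀ a, σ'.g a = if (a, false) ∈ C then 1 else if (a, true) ∈ C then 0 else σ.g a)
    (hout : ∀ a, (a, false) ∈ C → D.tl a ∉ σ.W n) {Y : Finset V} {x : A × Bool}
    (hx : x ∈ σ.Rh Y) (h1 : (res D).tl x ∈ σ.W n) : x ∈ σ'.Rh Y := by
  obtain ⟨a, b⟩ := x
  unfold State.Rh at hx ⊢
  rw [Finset.mem_filter] at hx ⊢
  refine ⟨Finset.mem_univ _, ?_⟩
  rcases hx.2 with ⟨hb, h2⟩ | ⟨hb, h2⟩
  · refine Or.inl ⟨hb, ?_⟩
    rcases h2 with h2 | h2
    · exact Or.inl h2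
    · refine Or.inr ⟨?_, h2.2⟩
      refine N_of hh hg h2.1 fun h3 => hout a h3 ?_
      have hb' : b = false := hb
      subst hb'
      exact h1
  · refine Or.inr ⟨hb, ?_⟩
    show 1 ≤ σ'.h a
    rw [hh a]; exact h2

/-- **The improvement.** -/
theorem pot_lt_B (hh : ∀ a, σ'.h a = σ.h a)
    (hg : ∀ a, σ'.g a = if (a, false) ∈ C then 1 else if (a, true) ∈ C then 0 else σ.g a)
    (hC : C ⊆ σ.Rg) (hout : ∀ a, (a, false) ∈ C → D.tl a ∉ σ.W n)
    (hav : ∀ k, k < n → ∀ x ∈ C, (res D).tl x ∉ σ.Y k)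
    {a0 : A} (h0C : (a0, true) ∈ C) (h0S : a0 ∉ Sp) (h0t : D.tl a0 ∉ σ.W n)
    (h0h : D.hd a0 ∈ σ.B n) (h0Y : ∀ k, k < n → D.hd a0 ∉ σ.Y k) {L : ℕ} (hL : 2 * n < L) :
    pot L σ.seq < pot L σ'.seq := by
  have hg0 : σ.g a0 = 1 := by
    have h := hC h0C
    unfold State.Rg at h
    rw [Finset.mem_filter] at h
    rcases h.2 with h1 | h1
    · exact absurd h1.1 (by simp)
    · exact h1.2
  have h0F : (a0, false) ∉ C := by
    intro h
    have h := hC h
    unfold State.Rg at h
    rw [Finset.mem_filter] at h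
    rcases h.2 with h1 | h1
    · have h2 := h1.2
      unfold State.N at h2
      rw [Finset.mem_filter] at h2
      have h3 : σ.g a0 = 0 := h2.2.1
      omega
    · exact absurd h1.1 (by simp)
  have h0N : a0 ∈ σ'.N := by
    unfold State.N
    rw [Finset.mem_filter]
    refine ⟨Finset.mem_univ _, ?_, Or.inr ?_⟩
    · rw [hg a0, if_neg h0F, if_pos h0C]
    · rw [hh a0]
      have h1 := σ.gh a0 h0S
      have h2 := σ.h0 a0
      omega
  -- the two closures
  have hB0 : σ.B 0 ⊆ σ'.B 0 := by
    rw [σ.B_zero, σ'.B_zero]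
    refine back_mono_in (Finset.Subset.refl _) fun x hx _ h2 => ?_
    exact Rh_of hh hg hout hx (W_mono σ (Nat.zero_le n) h2)
  have hBs : ∀ k, k < n → σ.B k = σ'.B k → σ.Y k = σ'.Y k →
      back D (σ.Rh (σ.Y k)) (σ.hds (σ.Y k)) ⊆ back D (σ'.Rh (σ'.Y k)) (σ'.hds (σ'.Y k)) := by
    intro k hk _ h2
    rw [← h2, hds_eq hh]
    refine back_mono_in (Finset.Subset.refl _) fun x hx _ h3 => ?_
    refine Rh_of hh hg hout hx ?_
    apply W_mono σ (show k + 1 ≤ n by omega)
    apply B_sub_W σ
    rw [σ.B_succ]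
    exact Finset.mem_union_right _ h3
  refine pot_lt (j0 := 2 * n) hL ?_ ?_
  · intro j hj h
    rcases Nat.even_or_odd' j with ⟨k, rfl | rfl⟩
    · rw [seq_even, seq_even]
      cases k with
      | zero => exact hB0
      | succ m =>
        have h1 : σ.B m = σ'.B m := by
          have := h (2 * m) (by omega)
          rwa [seq_even, seq_even] at this
        have h2 : σ.Y m = σ'.Y m := by
          have := h (2 * m + 1) (by omega)
          rwa [seq_odd, seq_odd] at this
        rw [σ.B_succ, σ'.B_succ]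
        exact Finset.union_subset_union (subset_of_eq h1) (hBs m (by omega) h1 h2)
    · rw [seq_odd, seq_odd]
      have h1 : σ.W k = σ'.W k := W_eq k h
      unfold State.Y
      refine back_mono_in (subset_of_eq h1) fun x hx _ h3 => ?_
      have hx' : x ∉ C := fun hxC => hav k (by omega) x hxC h3
      obtain ⟨a, b⟩ := x
      unfold State.Rg at hx ⊢
      rw [Finset.mem_filter] at hx ⊢
      refine ⟨Finset.mem_univ _, ?_⟩
      rcases hx.2 with ⟨hb, h4⟩ | ⟨hb, h4⟩
      · refine Or.inl ⟨hb, N_of hh hg h4 ?_⟩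
        have hb' : b = false := hb
        subst hb'
        exact hx'
      · refine Or.inr ⟨hb, ?_⟩
        have hb' : b = true := hb
        subst hb'
        show σ'.g a = 1
        rw [hg a]
        split_ifs
        · rfl
        · exact h4
  · intro h
    rw [seq_even, seq_even]
    intro hBn
    have h3 : D.tl a0 ∈ σ'.B n := by
      cases n with
      | zero =>
        rw [σ'.B_zero]
        have h4 : D.hd a0 ∈ back D (σ'.Rh ∅) {t} := hB0 h0h
        refine back_closed (σ'.Rh ∅) {t} (a0, false) ?_ h4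
        unfold State.Rh
        rw [Finset.mem_filter]
        exact ⟨Finset.mem_univ _, Or.inl ⟨rfl, Or.inr ⟨h0N, by simp⟩⟩⟩
      | succ m =>
        have h1 : σ.B m = σ'.B m := by
          have := h (2 * m) (by omega)
          rwa [seq_even, seq_even] at this
        have h2 : σ.Y m = σ'.Y m := by
          have := h (2 * m + 1) (by omega)
          rwa [seq_odd, seq_odd] at this
        have h5 := hBs m (by omega) h1 h2
        rw [σ.B_succ] at h0h
        rw [Finset.mem_union] at h0h
        have h6 : D.hd a0 ∈ back D (σ'.Rh (σ'.Y m)) (σ'.hds (σ'.Y m)) := by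
          rcases h0h with h7 | h7
          · exact absurd (W_sub_Y σ m (B_sub_W σ m h7)) (h0Y m (by omega))
          · exact h5 h7
        rw [σ'.B_succ]
        refine Finset.mem_union_right _ ?_
        refine back_closed (σ'.Rh (σ'.Y m)) _ (a0, false) ?_ h6
        unfold State.Rh
        rw [Finset.mem_filter]
        refine ⟨Finset.mem_univ _, Or.inl ⟨rfl, Or.inr ⟨h0N, fun h7 => ?_⟩⟩⟩
        rw [← h2] at h7
        exact h0Y m (by omega) h7.2
    rw [← hBn] at h3
    exact h0t (B_sub_W σ n h3)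

/-- the change of a flow by a set of residual arcs -/
def dlt (C : Finset (A × Bool)) (a : A) : ℤ :=
  (if (a, false) ∈ C then 1 else 0) - (if (a, true) ∈ C then 1 else 0)

lemma nt_dlt (C : Finset (A × Bool)) (X : Finset V) :
    nt D (dlt C) X = ∑ x ∈ C, chi (res D) X x := by
  have h1 : ∑ x ∈ C, chi (res D) X x
      = ∑ x : A × Bool, if x ∈ C then chi (res D) X x else 0 := by
    rw [← Finset.sum_filter]
    congr 1
    ext x
    simp
  rw [h1, Fintype.sum_prod_type]
  unfold nt
  apply Finset.sum_congr rfl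
  intro a _
  rw [Fintype.sum_bool, chi_res_false, chi_res_true]
  unfold dlt
  by_cases h2 : (a, false) ∈ C <;> by_cases h3 : (a, true) ∈ C <;> simp [h2, h3]

/-- rerouting `g` along a set of residual arcs with zero sums -/
lemma reroute (σ : State D Sp s t p r) {C : Finset (A × Bool)}
    (hC : C ⊆ σ.Rg) (h0 : ∀ X, ∑ x ∈ C, chi (res D) X x = 0) :
    ∃ σ' : State D Sp s t p r, (∀ a, σ'.h a = σ.h a) ∧
      ∀ a, σ'.g a = if (a, false) ∈ C then 1 else if (a, true) ∈ C then 0 else σ.g a := by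
  have hF : ∀ a, (a, false) ∈ C → σ.g a = 0 ∧ (a ∈ Sp ∨ σ.h a = 0) := fun a h =>
    σ.mem_N.1 (σ.mem_Rg_false.1 (hC h))
  have hT : ∀ a, (a, true) ∈ C → σ.g a = 1 := fun a h => σ.mem_Rg_true.1 (hC h)
  have hd : ∀ a, σ.g a + dlt C a =
      if (a, false) ∈ C then 1 else if (a, true) ∈ C then 0 else σ.g a := by
    intro a
    unfold dlt
    by_cases h2 : (a, false) ∈ C <;> by_cases h3 : (a, true) ∈ C
    · have h4 := (hF a h2).1
      have h5 := hT a h3
      omega
    · rw [if_pos h2, if_neg h3, if_pos h2, (hF a h2).1]; norm_num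
    · rw [if_neg h2, if_pos h3, if_neg h2, if_pos h3, hT a h3]; norm_num
    · rw [if_neg h2, if_neg h3, if_neg h2, if_neg h3]; ring
  refine ⟨{ g := fun a => σ.g a + dlt C a, h := σ.h, g01 := ?_, h0 := σ.h0, gh := ?_,
            fg := ?_, fh := σ.fh }, fun _ => rfl, hd⟩
  · intro a
    show σ.g a + dlt C a = 0 ∨ σ.g a + dlt C a = 1
    rw [hd a]
    split_ifs
    · exact Or.inr rfl
    · exact Or.inl rfl
    · exact σ.g01 a
  · intro a ha
    show σ.g a + dlt C a + σ.h a ≤ 1
    rw [hd a]
    have h1 := σ.gh a ha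
    have h2 := σ.h0 a
    split_ifs with h3 h4
    · rcases (hF a h3).2 with h5 | h5
      · exact absurd h5 ha
      · rw [h5]; norm_num
    · have h5 := hT a h4
      omega
    · exact h1
  · intro X hX
    have h1 : nt D (fun a => σ.g a + dlt C a) X = nt D σ.g X + nt D (dlt C) X := by
      unfold nt
      rw [← Finset.sum_add_distrib]
      apply Finset.sum_congr rfl
      intro a _
      ring
    show nt D (fun a => σ.g a + dlt C a) X = _
    rw [h1, nt_dlt, h0 X, add_zero]
    exact σ.fg X hX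

end ImprB

/-- **Improvement B.** If the tail of an ordinary arc of `g` entering `B n` from outside `W n` can be
reached from its head along reversed arcs of `g` and unused arcs outside `W n`, then there is a state
of larger potential. -/
theorem imprB (σ : State D Sp s t p r) (n : ℕ) {e : A} (he : e ∉ Sp) (hg : σ.g e = 1)
    (h1 : D.tl e ∉ σ.W n) (h2 : D.hd e ∈ σ.B n) (h3 : D.hd e ∉ σ.Yp n)
    (h4 : D.tl e ∈ back D (Rstar σ (σ.W n)) {D.hd e}) :
    ∃ σ' : State D Sp s t p r, ∀ L, 2 * n < L → pot L σ.seq < pot L σ'.seq := by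
  set R := Rstar σ (σ.W n) with hR
  have hRg : R ⊆ σ.Rg := Finset.filter_subset _ _
  have hx0 : (e, true) ∈ R := by
    rw [hR]
    unfold Rstar
    rw [Finset.mem_filter]
    exact ⟨σ.mem_Rg_true.2 hg, Or.inl rfl⟩
  have h4' : (res D).hd (e, true) ∈ back D R {(res D).tl (e, true)} := by
    rw [res_hd_true, res_tl_true]
    exact h4
  obtain ⟨C, hCR, hC0, hC1, hC2⟩ := cycle_exists hx0 h4'
  obtain ⟨σ', hh, hgg⟩ := ImprB.reroute σ (hCR.trans hRg) hC1
  refine ⟨σ', fun L hL => ImprB.pot_lt_B (n := n) (C := C) hh hgg (hCR.trans hRg) ?_ ?_ hC0 he h1 h2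
    ?_ hL⟩
  · intro a ha
    have h5 := hCR ha
    rw [hR] at h5
    unfold Rstar at h5
    rw [Finset.mem_filter] at h5
    rcases h5.2 with h6 | h6
    · exact absurd h6 (by simp)
    · exact h6.1
  · intro k hk x hx
    refine (hC2 (σ.Y k) ((σ.Y_closed k).mono hRg) ?_ x hx).1
    rw [res_hd_true]
    intro h5
    exact h1 (σ.Yp_subset_W n (σ.Y_subset_Yp hk h5))
  · intro k hk h5
    exact h3 (σ.Y_subset_Yp hk h5)

end BHNet.GB
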