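import Mathlib
import Pool.Agent.Lib.MP_3940ed_co.GB.Facts
import Pool.Agent.Lib.MP_3940ed_co.GB.Lex

/-!
# The improvement of Step D

If an ordinary `h`-arc `f = (c, d)` enters `Y_i` and `d` can be reached from `c` in the
`h`-residual network without the unused ordinary arcs inside `Y_i`, then rerouting `h` along
the residual cycle through `f` increases the potential.
-/

namespace BHNet.GB

open Classical BHNet

set_option linter.unusedSectionVars false

variable {V A : Type*} [Fintype V] [DecidableEq V] [Fintype A] [DecidableEq A]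
variable {D : Net V A} {Sp : Finset A} {s t : V} {p r : ℕ}

/-- the change of `h` caused by a set of residual arcs -/
noncomputable def dlD (C : Finset (A × Bool)) (a : A) : ℤ :=
  (if (a, false) ∈ C then 1 else 0) - (if (a, true) ∈ C then 1 else 0)

lemma nt_add_D (f f' : A → ℤ) (X : Finset V) :
    nt D (fun a => f a + f' a) X = nt D f X + nt D f' X := by
  unfold nt
  rw [← Finset.sum_add_distrib]
  apply Finset.sum_congr rfl
  intro a _
  ring

/-- the net amount of the change of a set of residual arcs -/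
lemma nt_dl_D (C : Finset (A × Bool)) (X : Finset V) :
    nt D (dlD C) X = ∑ x ∈ C, chi (res D) X x := by
  have h1 : ∑ x ∈ C, chi (res D) X x
      = ∑ x : A × Bool, if x ∈ C then chi (res D) X x else 0 := by
    rw [← Finset.sum_filter]
    congr 1
    ext x
    simp
  rw [h1, Fintype.sum_prod_type]
  unfold nt
  apply Finset.sum_congr rfl
  intro a _
  rw [Fintype.sum_bool, chi_res_false, chi_res_true]
  unfold dlD
  by_cases h2 : (a, false) ∈ C <;> by_cases h3 : (a, true) ∈ C <;> simp [h2, h3]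

/-- rerouting `h` along a set of residual arcs with zero sums -/
lemma State.rerouteD (σ : State D Sp s t p r) {Y : Finset V} {C : Finset (A × Bool)}
    (hC : C ⊆ σ.Rh Y) (h0 : ∀ X, ∑ x ∈ C, chi (res D) X x = 0) :
    ∃ σ' : State D Sp s t p r, σ'.g = σ.g ∧ ∀ a, σ'.h a = σ.h a + dlD C a := by
  refine ⟨{ g := σ.g, h := fun a => σ.h a + dlD C a, g01 := σ.g01, h0 := ?_, gh := ?_,
            fg := σ.fg, fh := ?_ }, rfl, fun a => rfl⟩
  · intro a
    show 0 ≤ σ.h a + dlD C a
    have h1 := σ.h0 a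
    unfold dlD
    by_cases h3 : (a, true) ∈ C
    · have h4 := σ.mem_Rh_true.mp (hC h3)
      rw [if_pos h3]
      split_ifs <;> omega
    · rw [if_neg h3]
      split_ifs <;> omega
  · intro a ha
    show σ.g a + (σ.h a + dlD C a) ≤ 1
    have h1 := σ.gh a ha
    unfold dlD
    by_cases h2 : (a, false) ∈ C
    · have h4 := σ.mem_Rh_false.mp (hC h2)
      rcases h4 with h4 | ⟨h4, -⟩
      · exact absurd h4 ha
      · rw [State.mem_N] at h4
        have h5 := h4.1
        have h6 := h4.2.resolve_left ha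
        rw [if_pos h2]
        split_ifs <;> omega
    · rw [if_neg h2]
      split_ifs <;> omega
  · intro X hX
    show nt D (fun a => σ.h a + dlD C a) X = _
    rw [nt_add_D, nt_dl_D, h0 X, add_zero]
    exact σ.fh X hX

section mono

variable {σ σ' : State D Sp s t p r} {i : ℕ}

/-- the sets `B_k` do not shrink -/
lemma mono_BD {k : ℕ} (hki : k ≤ i)
    (hB : ∀ a, (D.tl a ∈ σ.B i ∨ D.hd a ∈ σ.B i) → σ'.g a = σ.g a ∧ σ'.h a = σ.h a)
    (hBe : ∀ m < k, σ.B m = σ'.B m) (hYe : ∀ m < k, σ.Y m = σ'.Y m) : σ.B k ⊆ σ'.B k := by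
  have key : ∀ (Y : Finset V) (x : A × Bool), x ∈ σ.Rh Y → (res D).hd x ∈ σ.B k →
      x ∈ σ'.Rh Y := by
    rintro Y ⟨a, b⟩ hx hh
    cases b with
    | false =>
      rw [res_hd_false] at hh
      obtain ⟨h1, h2⟩ := hB a (Or.inr (σ.B_mono hki hh))
      rw [State.mem_Rh_false] at hx ⊢
      rw [State.mem_N] at hx ⊢
      rw [h1, h2]
      exact hx
    | true =>
      rw [res_hd_true] at hh
      obtain ⟨h1, h2⟩ := hB a (Or.inl (σ.B_mono hki hh))
      rw [State.mem_Rh_true] at hx ⊢
      rw [h2]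
      exact hx
  cases k with
  | zero =>
    rw [State.B_zero] at key ⊢
    rw [State.B_zero]
    apply back_mono_in subset_rfl
    intro x hx hh _
    exact key ∅ x hx hh
  | succ k =>
    rw [σ.B_succ k, σ'.B_succ k, ← hBe k (Nat.lt_succ_self k), ← hYe k (Nat.lt_succ_self k)]
    apply Finset.union_subset_union subset_rfl
    have hsub : back D (σ.Rh (σ.Y k)) (σ.hds (σ.Y k)) ⊆ σ.B (k + 1) := by
      rw [State.B_succ]
      exact Finset.subset_union_right
    apply back_mono_in
    · intro v hv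
      have hv2 := hsub (subset_back (σ.Rh (σ.Y k)) _ hv)
      unfold State.hds at hv ⊢
      rw [Finset.mem_image] at hv ⊢
      obtain ⟨a, ha, rfl⟩ := hv
      refine ⟨a, ?_, rfl⟩
      rw [Finset.mem_filter] at ha ⊢
      rw [(hB a (Or.inr (σ.B_mono hki hv2))).2]
      exact ha
    · intro x hx hh _
      exact key _ x hx (hsub hh)

/-- the sets `Y_k` do not shrink -/
lemma mono_YD {k : ℕ} (hki : k ≤ i)
    (hg : σ'.g = σ.g)
    (hN : ∀ a ∈ σ.N, D.tl a ∈ σ.Y i → D.hd a ∈ σ.Y i → a ∈ σ'.N)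
    (hYe : ∀ m < k, σ.Y m = σ'.Y m) (hBe : σ.B k = σ'.B k) : σ.Y k ⊆ σ'.Y k := by
  have hW : σ.W k ⊆ σ'.W k := by
    rw [State.W_eq, State.W_eq, ← hBe]
    apply Finset.union_subset_union _ subset_rfl
    cases k with
    | zero => exact subset_rfl
    | succ k => rw [State.Yp_succ, State.Yp_succ, ← hYe k (Nat.lt_succ_self k)]
  apply back_mono_in hW
  rintro ⟨a, b⟩ hx hh ht
  cases b with
  | false =>
    rw [res_hd_false] at hh
    rw [res_tl_false] at ht
    rw [State.mem_Rg_false] at hx ⊢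
    exact hN a hx (σ.Y_mono hki ht) (σ.Y_mono hki hh)
  | true =>
    rw [State.mem_Rg_true] at hx ⊢
    rw [hg]
    exact hx

end mono

lemma State.seq_evenD (σ : State D Sp s t p r) (k : ℕ) : σ.seq (2 * k) = σ.B k := by
  unfold State.seq
  rw [if_pos (by omega)]
  congr 1
  omega

lemma State.seq_oddD (σ : State D Sp s t p r) (k : ℕ) : σ.seq (2 * k + 1) = σ.Y k := by
  unfold State.seq
  rw [if_neg (by omega)]
  congr 1
  omega

/-- **The improvement of Step D.** -/
theorem imprD (σ : State D Sp s t p r) {i : ℕ} {f : A} (hf : f ∉ Sp) (hf1 : 1 ≤ σ.h f)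
    (hc : D.tl f ∉ σ.Y i) (hd : D.hd f ∈ σ.Y i)
    (hreach : (res D).Reach (σ.Rh (σ.Y i)) (D.tl f) (D.hd f)) {L : ℕ} (hL : 2 * i + 1 < L) :
    ∃ σ' : State D Sp s t p r, pot L σ.seq < pot L σ'.seq := by
  have hx0 : ((f, true) : A × Bool) ∈ σ.Rh (σ.Y i) := σ.mem_Rh_true.mpr hf1
  obtain ⟨C, hCR, hfC, hsum, havoid⟩ := cycle_exists (D := D) hx0
    (by rw [res_hd_true, res_tl_true, mem_back_single]; exact hreach)
  obtain ⟨σ', hg', hh'⟩ := σ.rerouteD hCR hsum
  -- the cycle avoids `B_i`
  have hBi : Cl D (σ.Rh (σ.Y i)) (σ.B i) := σ.B_closed' (σ.Yp_subset_Y i)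
  have hcB : (res D).hd ((f, true) : A × Bool) ∉ σ.B i := by
    rw [res_hd_true]
    exact fun h => hc (σ.B_subset_Y le_rfl h)
  have hav := havoid _ hBi hcB
  have hB : ∀ a, (D.tl a ∈ σ.B i ∨ D.hd a ∈ σ.B i) → σ'.g a = σ.g a ∧ σ'.h a = σ.h a := by
    intro a ha
    refine ⟨by rw [hg'], ?_⟩
    rw [hh' a]
    unfold dlD
    rw [if_neg, if_neg]
    · ring
    · intro h1
      have h2 := hav _ h1
      rw [res_tl_true, res_hd_true] at h2
      tauto
    · intro h1
      have h2 := hav _ h1
      rw [res_tl_false, res_hd_false] at h2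
      tauto
  -- no unused arc inside `Y_i` is used
  have hN : ∀ a ∈ σ.N, D.tl a ∈ σ.Y i → D.hd a ∈ σ.Y i → a ∈ σ'.N := by
    intro a ha h1 h2
    rw [State.mem_N] at ha ⊢
    rw [hg']
    refine ⟨ha.1, ?_⟩
    rcases ha.2 with h3 | h3
    · exact Or.inl h3
    · by_cases h4 : a ∈ Sp
      · exact Or.inl h4
      · right
        rw [hh' a, h3]
        unfold dlD
        rw [if_neg, if_neg]
        · ring
        · intro h5
          have := σ.mem_Rh_true.mp (hCR h5)
          omega
        · intro h5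
          rcases σ.mem_Rh_false.mp (hCR h5) with h6 | ⟨-, h6⟩
          · exact h4 h6
          · exact h6 ⟨h1, h2⟩
  refine ⟨σ', pot_lt hL ?_ ?_⟩
  · intro j hj hprev
    have hBe : ∀ m, 2 * m < j → σ.B m = σ'.B m := by
      intro m hm
      have := hprev (2 * m) hm
      rwa [State.seq_evenD, State.seq_evenD] at this
    have hYe : ∀ m, 2 * m + 1 < j → σ.Y m = σ'.Y m := by
      intro m hm
      have := hprev (2 * m + 1) hm
      rwa [State.seq_oddD, State.seq_oddD] at this
    obtain ⟨k, hk⟩ : ∃ k, j = 2 * k ∨ j = 2 * k + 1 := ⟨j / 2, by omega⟩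
    rcases hk with rfl | rfl
    · rw [State.seq_evenD, State.seq_evenD]
      exact mono_BD (i := i) (by omega) hB (fun m hm => hBe m (by omega))
        (fun m hm => hYe m (by omega))
    · rw [State.seq_oddD, State.seq_oddD]
      exact mono_YD (i := i) (by omega) hg' hN (fun m hm => hYe m (by omega))
        (hBe k (by omega))
  · intro _
    rw [State.seq_oddD, State.seq_oddD]
    intro heq
    have hfN : f ∈ σ'.N := by
      rw [State.mem_N, hg']
      refine ⟨σ.g_zero_of_h f hf hf1, Or.inr ?_⟩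
      rw [hh' f, σ.h_eq f hf hf1]
      unfold dlD
      rw [if_neg, if_pos hfC]
      · norm_num
      · intro h5
        rcases σ.mem_Rh_false.mp (hCR h5) with h6 | ⟨h6, -⟩
        · exact hf h6
        · rw [State.mem_N] at h6
          have := h6.2.resolve_left hf
          omega
    have h1 : D.tl f ∈ σ'.Y i := σ'.Y_N hfN (by rw [← heq]; exact hd)
    rw [← heq] at h1
    exact hc h1

end BHNet.GB
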