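import Mathlib
import Pool.Agent.Lib.MP_3940ed_co.GB.Facts

/-!
# Pushing a state along residual cycles and trails
-/

namespace BHNet.GB

open Classical BHNet

set_option linter.unusedSectionVars false

variable {V A : Type*} [Fintype V] [DecidableEq V] [Fintype A] [DecidableEq A]
variable {D : Net V A} {Sp : Finset A} {s t : V} {p r : ℕ}

/-- the integer vector of a set of residual arcs -/
def delta (C : Finset (A × Bool)) (a : A) : ℤ :=
  (if (a, false) ∈ C then 1 else 0) - (if (a, true) ∈ C then 1 else 0)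

lemma sum_chi_res (C : Finset (A × Bool)) (X : Finset V) :
    ∑ x ∈ C, chi (res D) X x = nt D (delta C) X := by
  have h1 : ∑ x ∈ C, chi (res D) X x
      = ∑ x : A × Bool, if x ∈ C then chi (res D) X x else 0 := by
    rw [Finset.sum_ite_mem, Finset.univ_inter]
  rw [h1, Fintype.sum_prod_type]
  unfold nt
  apply Finset.sum_congr rfl
  intro a _
  rw [Fintype.sum_bool, chi_res_true, chi_res_false]
  unfold delta
  split_ifs <;> ring

lemma nt_add (f f' : A → ℤ) (X : Finset V) :
    nt D (fun a => f a + f' a) X = nt D f X + nt D f' X := by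
  unfold nt
  rw [← Finset.sum_add_distrib]
  apply Finset.sum_congr rfl
  intro a _
  ring

/-- pushing `g` along a residual cycle -/
def State.pushG (σ : State D Sp s t p r) (C : Finset (A × Bool)) (hC : C ⊆ σ.Rg)
    (hb : ∀ X, ∑ x ∈ C, chi (res D) X x = 0) : State D Sp s t p r where
  g := fun a => σ.g a + delta C a
  h := σ.h
  g01 := by
    intro a
    unfold delta
    have h1 : (a, false) ∈ C → σ.g a = 0 := fun h =>
      ((State.mem_N _).mp ((State.mem_Rg_false _).mp (hC h))).1
    have h2 : (a, true) ∈ C → σ.g a = 1 := fun h => (State.mem_Rg_true _).mp (hC h)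
    rcases σ.g01 a with h3 | h3 <;> split_ifs with h4 h5 h5 <;> simp_all
  h0 := σ.h0
  gh := by
    intro a ha
    unfold delta
    have h1 := σ.gh a ha
    have h2 : (a, false) ∈ C → σ.g a = 0 ∧ σ.h a = 0 := by
      intro h
      have h3 := (State.mem_N _).mp ((State.mem_Rg_false _).mp (hC h))
      exact ⟨h3.1, h3.2.resolve_left ha⟩
    split_ifs with h4 h5 h5
    · omega
    · have := h2 h4; omega
    · omega
    · omega
  fg := by
    intro X hX
    rw [nt_add, ← sum_chi_res, hb X, σ.fg X hX, add_zero]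
  fh := σ.fh

/-- pushing `h` along a residual cycle -/
def State.pushH (σ : State D Sp s t p r) (Y : Finset V) (C : Finset (A × Bool))
    (hC : C ⊆ σ.Rh Y) (hb : ∀ X, ∑ x ∈ C, chi (res D) X x = 0) : State D Sp s t p r where
  g := σ.g
  h := fun a => σ.h a + delta C a
  g01 := σ.g01
  h0 := by
    intro a
    unfold delta
    have h1 := σ.h0 a
    have h2 : (a, true) ∈ C → 1 ≤ σ.h a := fun h => (State.mem_Rh_true _).mp (hC h)
    split_ifs with h4 h5 h5
    · omega
    · omega
    · have := h2 h5; omega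
    · omega
  gh := by
    intro a ha
    unfold delta
    have h1 := σ.gh a ha
    have h2 : (a, false) ∈ C → σ.g a = 0 ∧ σ.h a = 0 := by
      intro h
      have h3 := ((State.mem_Rh_false _).mp (hC h)).resolve_left ha
      have h4 := (State.mem_N _).mp h3.1
      exact ⟨h4.1, h4.2.resolve_left ha⟩
    split_ifs with h4 h5 h5
    · omega
    · have := h2 h4; omega
    · omega
    · omega
  fg := σ.fg
  fh := by
    intro X hX
    rw [nt_add, ← sum_chi_res, hb X, σ.fh X hX, add_zero]

/-- augmenting `h` along a residual trail from `s` to `t` -/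
lemma State.augH (σ : State D Sp s t p r) (Y : Finset V) (h : s ∈ back D (σ.Rh Y) {t}) :
    Nonempty (State D Sp s t p (r + 1)) := by
  rw [mem_back_single] at h
  obtain ⟨C, hC, hp⟩ := Net.exists_path h
  refine ⟨{ g := σ.g, h := fun a => σ.h a + delta C a, g01 := σ.g01, h0 := ?_, gh := ?_,
            fg := σ.fg, fh := ?_ }⟩
  · intro a
    unfold delta
    have h1 := σ.h0 a
    have h2 : (a, true) ∈ C → 1 ≤ σ.h a := fun h => (State.mem_Rh_true _).mp (hC h)
    split_ifs with h4 h5 h5
    · omega
    · omega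
    · have := h2 h5; omega
    · omega
  · intro a ha
    unfold delta
    have h1 := σ.gh a ha
    have h2 : (a, false) ∈ C → σ.g a = 0 ∧ σ.h a = 0 := by
      intro h
      have h3 := ((State.mem_Rh_false _).mp (hC h)).resolve_left ha
      have h4 := (State.mem_N _).mp h3.1
      exact ⟨h4.1, h4.2.resolve_left ha⟩
    split_ifs with h4 h5 h5
    · omega
    · have := h2 h4; omega
    · omega
    · omega
  · intro X hX
    rw [nt_add, ← sum_chi_res, trail_sum hp, σ.fh X hX, if_neg hX]
    split_ifs <;> push_cast <;> ring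

lemma State.pushG_g (σ : State D Sp s t p r) (C : Finset (A × Bool)) (hC : C ⊆ σ.Rg)
    (hb : ∀ X, ∑ x ∈ C, chi (res D) X x = 0) (a : A) :
    (σ.pushG C hC hb).g a = σ.g a + delta C a := rfl

lemma State.pushG_h (σ : State D Sp s t p r) (C : Finset (A × Bool)) (hC : C ⊆ σ.Rg)
    (hb : ∀ X, ∑ x ∈ C, chi (res D) X x = 0) (a : A) :
    (σ.pushG C hC hb).h a = σ.h a := rfl

lemma State.pushH_g (σ : State D Sp s t p r) (Y : Finset V) (C : Finset (A × Bool))
    (hC : C ⊆ σ.Rh Y) (hb : ∀ X, ∑ x ∈ C, chi (res D) X x = 0) (a : A) :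
    (σ.pushH Y C hC hb).g a = σ.g a := rfl

lemma State.pushH_h (σ : State D Sp s t p r) (Y : Finset V) (C : Finset (A × Bool))
    (hC : C ⊆ σ.Rh Y) (hb : ∀ X, ∑ x ∈ C, chi (res D) X x = 0) (a : A) :
    (σ.pushH Y C hC hb).h a = σ.h a + delta C a := rfl

end BHNet.GB
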