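import Mathlib
import Pool.Agent.Lib.MP_3940ed_co.GB.Facts

/-!
# Steps A, B', C, D (second half) and E
-/

namespace BHNet.GB

open Classical BHNet

set_option linter.unusedSectionVars false

variable {V A : Type*} [Fintype V] [DecidableEq V] [Fintype A] [DecidableEq A]
variable {D : Net V A} {Sp : Finset A} {s t : V} {p r : ℕ}
variable (σ : State D Sp s t p r)

/-- an ordinary `g`-arc enters `Y_{n-1}` (no condition for `n = 0`) -/
def State.EntYp (n : ℕ) : Prop :=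
  n = 0 ∨ ∃ e, e ∉ Sp ∧ σ.g e = 1 ∧ D.tl e ∉ σ.Yp n ∧ D.hd e ∈ σ.Yp n

/-- Step A, part 1: few special arcs enter `W_n` if `g` does not leave it. -/
lemma State.stepA_special (hp : 1 ≤ p) {n : ℕ} (hs : s ∉ σ.W n) (hE : σ.EntYp n)
    (hg : ∀ a, σ.g a = 1 → D.tl a ∈ σ.W n → D.hd a ∈ σ.W n) :
    (D.ent Sp (σ.W n)).card < p := by
  rcases hE with rfl | ⟨e, he, heg, h1, h2⟩
  · have h3 : D.ent Sp (σ.W 0) = ∅ := by
      rw [Finset.eq_empty_iff_forall_notMem]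
      intro a ha
      rw [Net.mem_ent] at ha
      exact ha.2.1 (σ.B_special (n := 0) ha.1 ha.2.2)
    rw [h3, Finset.card_empty]
    exact hp
  · -- an ordinary `g`-arc enters `W_n`
    have key : ∃ a, a ∉ Sp ∧ σ.g a = 1 ∧ D.tl a ∉ σ.W n ∧ D.hd a ∈ σ.W n := by
      by_cases h3 : D.tl e ∈ σ.W n
      · have hsQ : s ∉ σ.B n \ σ.Yp n := fun h4 =>
          hs (σ.B_subset_W n (Finset.mem_sdiff.mp h4).1)
        have h4 : D.tl e ∈ σ.B n \ σ.Yp n := by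
          rw [State.W_eq, Finset.mem_union] at h3
          rw [Finset.mem_sdiff]
          exact ⟨h3.resolve_left h1, h1⟩
        have h5 : D.hd e ∉ σ.B n \ σ.Yp n := fun h6 => (Finset.mem_sdiff.mp h6).2 h2
        obtain ⟨a, ha1, ha2, ha3⟩ := σ.g_enter_of_leave hsQ heg h4 h5
        rw [Finset.mem_sdiff] at ha2 ha3
        have h6 : D.tl a ∉ σ.Yp n := fun h7 => ha3.2 (σ.Yp_g ha1 h7)
        have h7 : D.tl a ∉ σ.B n := fun h8 => ha2 ⟨h8, h6⟩
        refine ⟨a, fun h8 => h7 (σ.B_special h8 ha3.1), ha1, ?_, σ.B_subset_W n ha3.1⟩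
        rw [State.W_eq, Finset.mem_union]
        push Not
        exact ⟨h6, h7⟩
      · exact ⟨e, he, heg, h3, σ.Yp_subset_W n h2⟩
    obtain ⟨a, ha, hag, h3, h4⟩ := key
    exact σ.special_lt (σ.t_mem_W n) hs (fun b hb => σ.W_N hb) hg ha hag h3 h4

/-- **Step A**: `g` leaves `W_n`. -/
lemma State.stepA (hp : 1 ≤ p) {N : ℕ} (hN : p + r < N)
    (hcut : ∀ Z : Finset V, t ∈ Z → s ∉ Z → (D.ent Sp Z).card < p →
      N ≤ (D.ent Finset.univ Z).card) {n : ℕ} (hs : s ∉ σ.W n) (hE : σ.EntYp n) :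
    ∃ a, σ.g a = 1 ∧ D.tl a ∈ σ.W n ∧ D.hd a ∉ σ.W n := by
  by_contra hcon
  push Not at hcon
  have h1 := σ.cut_count hcut (σ.t_mem_W n) hs (fun b hb => σ.W_N hb) hcon
    (σ.stepA_special hp hs hE hcon)
  have h2 := σ.hO_le (n := n) (fun h3 => hs (σ.B_subset_W n h3))
  omega

/-- **Step B'**: if an ordinary `g`-arc enters `Y_n`, then `s ∉ Y_n`. -/
lemma State.stepB' {n : ℕ} {e : A} (heg : σ.g e = 1) (h1 : D.tl e ∉ σ.Y n)
    (h2 : D.hd e ∈ σ.Y n) : s ∉ σ.Y n := by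
  intro hs
  have h3 : s ∉ (σ.Y n)ᶜ := by simpa using hs
  obtain ⟨a, ha, h4, h5⟩ := σ.g_enter_of_leave h3 heg (by simpa using h1) (by simpa using h2)
  rw [Finset.mem_compl] at h4 h5
  exact h5 (σ.Y_g ha (not_not.mp h4))

/-- **Step C**: more than `r` units of `h` enter `Y_n` on ordinary arcs. -/
lemma State.stepC {N : ℕ} (hN : p + r < N)
    (hcut : ∀ Z : Finset V, t ∈ Z → s ∉ Z → (D.ent Sp Z).card < p →
      N ≤ (D.ent Finset.univ Z).card) {n : ℕ} {e : A} (he : e ∉ Sp) (heg : σ.g e = 1)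
    (h1 : D.tl e ∉ σ.Y n) (h2 : D.hd e ∈ σ.Y n) : (r : ℤ) < σ.hO (σ.Y n) := by
  have hs := σ.stepB' heg h1 h2
  have h3 := σ.special_lt (σ.t_mem_Y n) hs (fun b hb => σ.Y_N hb) (fun b hb => σ.Y_g hb)
    he heg h1 h2
  have h4 := σ.cut_count hcut (σ.t_mem_Y n) hs (fun b hb => σ.Y_N hb) (fun b hb => σ.Y_g hb) h3
  omega

/-- **Step D**, second half: either some ordinary `h`-arc entering `Y_n` can be freed or
`s ∉ B_{n+1}`. -/
lemma State.stepD {n : ℕ} (hs : s ∉ σ.B n) :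
    (∃ f, f ∉ Sp ∧ σ.h f = 1 ∧ D.tl f ∉ σ.Y n ∧ D.hd f ∈ σ.Y n ∧
      D.tl f ∈ back D (σ.Rh (σ.Y n)) {D.hd f}) ∨ s ∉ σ.B (n + 1) := by
  by_contra hcon
  push Not at hcon
  obtain ⟨h1, h2⟩ := hcon
  rw [State.B_succ, Finset.mem_union] at h2
  have h3 := h2.resolve_left hs
  unfold back at h3
  rw [Finset.mem_filter] at h3
  obtain ⟨-, u, hu, hr⟩ := h3
  unfold State.hds at hu
  rw [Finset.mem_image] at hu
  obtain ⟨f, hf, rfl⟩ := hu
  rw [Finset.mem_filter] at hf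
  obtain ⟨-, hf1, hf2, hf3, hf4⟩ := hf
  have h4 := h1 f hf1 hf2 hf3 hf4
  have h5 : s ∈ back D (σ.Rh (σ.Y n)) {D.hd f} := mem_back_single.mpr hr
  set T := back D (σ.Rh (σ.Y n)) {D.hd f} with hT
  have hcl : Cl D (σ.Rh (σ.Y n)) T := back_closed _ _
  have h6 : D.hd f ∈ T := subset_back _ _ (Finset.mem_singleton_self _)
  obtain ⟨a, ha, h7, h8⟩ := σ.h_enter_of_leave (X := Tᶜ) (by simpa using h5) (e := f)
    (by omega) (by simpa using h4) (by simpa using h6)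
  rw [Finset.mem_compl] at h7 h8
  have h9 := hcl (a, true) (σ.mem_Rh_true.mpr ha) (by simpa using not_not.mp h7)
  exact h8 (by simpa using h9)

/-- **Step E**: `B_{n+1}` is not contained in `Y_n`. -/
lemma State.stepE {n : ℕ} (hC : (r : ℤ) < σ.hO (σ.Y n)) (hs : s ∉ σ.B (n + 1)) :
    ¬ σ.B (n + 1) ⊆ σ.Y n := by
  intro hsub
  have h1 : σ.W (n + 1) = σ.Y n := by
    rw [State.W_succ]
    exact Finset.union_eq_left.mpr hsub
  have h2 := σ.hO_le (n := n + 1) hs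
  rw [h1] at h2
  omega

/-- `W_n` is a proper subset of `Y_n`. -/
lemma State.W_ssubset_Y {n : ℕ} (h : ∃ a, σ.g a = 1 ∧ D.tl a ∈ σ.W n ∧ D.hd a ∉ σ.W n) :
    (σ.W n).card < (σ.Y n).card := by
  apply Finset.card_lt_card
  rw [Finset.ssubset_iff_of_subset (σ.W_subset_Y n)]
  obtain ⟨a, ha, h1, h2⟩ := h
  exact ⟨D.hd a, σ.Y_g ha (σ.W_subset_Y n h1), h2⟩

end BHNet.GB
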