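import Mathlib
import Pool.Agent.Lib.MP_3940ed_co.GB.StepA
import Pool.Agent.Lib.MP_3940ed_co.GB.ImprB
import Pool.Agent.Lib.MP_3940ed_co.GB.ImprD
import Pool.Agent.Lib.MP_3940ed_co.GB.Push
import Pool.Agent.Lib.MP_3940ed_co.GB.Final

/-!
# The one-step theorem
-/

namespace BHNet.GB

open Classical BHNet

set_option linter.unusedSectionVars false

theorem one_step.{u, v} (q : ℕ) (V : Type u) (A : Type v) [Fintype V] [DecidableEq V] [Fintype A]
    [DecidableEq A] (D : Net V A) (Sp : Finset A) (s t : V) (p r : ℕ) (_hst : s ≠ t) (hp : 1 ≤ p)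
    (hr : r < q)
    (hcut : ∀ Z : Finset V, t ∈ Z → s ∉ Z → (D.ent Sp Z).card < p →
      p + q ≤ (D.ent Finset.univ Z).card)
    (σ0 : State D Sp s t p r) : Nonempty (State D Sp s t p (r + 1)) := by
  set L := 2 * Fintype.card V + 4 with hL
  obtain ⟨σ, hmax⟩ := exists_max σ0 L (fun σ => σ.seq)
  by_cases hs0 : s ∈ σ.W 0
  · exact σ.augH ∅ hs0
  exfalso
  have key : ∀ n ≤ Fintype.card V + 1, s ∉ σ.W n ∧ σ.EntYp n ∧ n ≤ (σ.W n).card := by
    intro n
    induction n with
    | zero => intro _; exact ⟨hs0, Or.inl rfl, Nat.zero_le _⟩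
    | succ n ih =>
      intro hn
      obtain ⟨h1, h2, h3⟩ := ih (by omega)
      have hA := σ.stepA hp (N := p + q) (by omega) hcut h1 h2
      rcases stepB σ n h1 hA with ⟨e, he, heg, h4, h5⟩ | ⟨e, he, heg, h4, h5, h6, h7⟩
      · have h6 : D.hd e ∈ σ.Y n := σ.W_subset_Y n h5
        have hsY := σ.stepB' heg h4 h6
        have hC := σ.stepC (N := p + q) (by omega) hcut he heg h4 h6
        have hsB : s ∉ σ.B n := fun h => h1 (σ.B_subset_W n h)
        rcases σ.stepD hsB with ⟨f, hf, hf1, hf2, hf3, hf4⟩ | hsB'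
        · exfalso
          obtain ⟨σ', hσ'⟩ := imprD σ (i := n) hf (by omega) hf2 hf3
            (mem_back_single.mp hf4) (L := L) (by omega)
          exact hmax σ' hσ'
        · have hE := σ.stepE hC hsB'
          refine ⟨?_, Or.inr ⟨e, he, heg, h4, h6⟩, ?_⟩
          · rw [σ.W_succ, Finset.mem_union]
            push Not
            exact ⟨hsY, hsB'⟩
          · have h8 := σ.W_ssubset_Y hA
            have h9 := Finset.card_le_card (σ.Y_subset_W n)
            omega
      · exfalso
        obtain ⟨σ', hσ'⟩ := imprB σ n he heg h4 h5 h6 h7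
        exact hmax σ' (hσ' L (by omega))
  have h1 := (key (Fintype.card V + 1) le_rfl).2.2
  have h2 := Finset.card_le_univ (σ.W (Fintype.card V + 1))
  omega

theorem core_all.{u, v} (q : ℕ) : CoreStatement.{u, v} q :=
  core_of_step q (one_step q)

theorem holds_all.{u, v} (k l : ℕ) (hl : 1 ≤ l) : BeinekeHarary.Holds.{u, v} k l :=
  holds_of_core hl (core_all (l - 1))

end BHNet.GB

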