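import Mathlib
import Pool.Agent.Lib.MP_3940ed_co.GB.Facts

/-!
# Step B: an ordinary `g`-arc enters `Y_n`, or a residual cycle for `g` exists
-/

namespace BHNet.GB

open Classical BHNet

set_option linter.unusedSectionVars false

variable {V A : Type*} [Fintype V] [DecidableEq V] [Fintype A] [DecidableEq A]
variable {D : Net V A} {Sp : Finset A} {s t : V} {p r : ℕ}
variable (σ : State D Sp s t p r)

/-- residual arcs for `g`: all reversed arcs, and the unused arcs with both ends outside `W` -/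
noncomputable def State.Rstar (W : Finset V) : Finset (A × Bool) :=
  σ.Rg.filter (fun x => x.2 = true ∨ (D.tl x.1 ∉ W ∧ D.hd x.1 ∉ W))

lemma State.Rstar_subset (W : Finset V) : σ.Rstar W ⊆ σ.Rg := Finset.filter_subset _ _

lemma State.mem_Rstar_false {W : Finset V} {a : A} :
    (a, false) ∈ σ.Rstar W ↔ a ∈ σ.N ∧ D.tl a ∉ W ∧ D.hd a ∉ W := by
  unfold State.Rstar
  rw [Finset.mem_filter, State.mem_Rg_false]
  simp

lemma State.mem_Rstar_true {W : Finset V} {a : A} : (a, true) ∈ σ.Rstar W ↔ σ.g a = 1 := by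
  unfold State.Rstar
  rw [Finset.mem_filter, State.mem_Rg_true]
  simp

/-- `Y_{n-1}` is closed for `Rstar` -/
lemma State.Yp_closed_star (n : ℕ) (W : Finset V) : Cl D (σ.Rstar W) (σ.Yp n) :=
  Cl.mono (σ.Rstar_subset W) (σ.Yp_closed n)

/-- from outside `W`, a path for `g` reaches `W` by a reversed arc, and stays in `Rstar` -/
lemma State.reach_W {n : ℕ} {u : V} (hu : u ∉ σ.W n) (hY : u ∈ σ.Y n) :
    ∃ e, σ.g e = 1 ∧ D.tl e ∈ σ.W n ∧ D.hd e ∉ σ.W n ∧
      (res D).Reach (σ.Rstar (σ.W n)) u (D.tl e) := by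
  have h1 : ∃ v ∈ σ.W n, (res D).Reach σ.Rg u v := by
    unfold State.Y back at hY
    rw [Finset.mem_filter] at hY
    exact hY.2
  obtain ⟨v, hv, hr⟩ := h1
  unfold Net.Reach at hr
  revert hu
  clear hY
  induction hr using Relation.ReflTransGen.head_induction_on with
  | refl => intro hu; exact absurd hv hu
  | @head x y h1 h2 ih =>
    intro hx
    obtain ⟨⟨a, b⟩, ha, rfl, rfl⟩ := h1
    cases b with
    | false =>
      rw [State.mem_Rg_false] at ha
      rw [res_tl_false] at hx ⊢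
      rw [res_hd_false] at ih
      have h3 : D.hd a ∉ σ.W n := fun h4 => hx (σ.W_N ha h4)
      obtain ⟨e, he1, he2, he3, he4⟩ := ih h3
      refine ⟨e, he1, he2, he3, ?_⟩
      exact Relation.ReflTransGen.head ⟨(a, false), σ.mem_Rstar_false.mpr ⟨ha, hx, h3⟩,
        by simp, by simp⟩ he4
    | true =>
      rw [State.mem_Rg_true] at ha
      rw [res_tl_true] at hx ⊢
      rw [res_hd_true] at ih
      by_cases h3 : D.tl a ∈ σ.W n
      · refine ⟨a, ha, h3, hx, ?_⟩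
        exact Relation.ReflTransGen.single ⟨(a, true), σ.mem_Rstar_true.mpr ha, by simp, by simp⟩
      · obtain ⟨e, he1, he2, he3, he4⟩ := ih h3
        refine ⟨e, he1, he2, he3, ?_⟩
        exact Relation.ReflTransGen.head ⟨(a, true), σ.mem_Rstar_true.mpr ha,
          by simp, by simp⟩ he4

/-- **Step B** -/
lemma State.stepB {n : ℕ} (hs : s ∉ σ.W n)
    (hleave : ∃ a, σ.g a = 1 ∧ D.tl a ∈ σ.W n ∧ D.hd a ∉ σ.W n) :
    (∃ e, e ∉ Sp ∧ σ.g e = 1 ∧ D.tl e ∉ σ.Y n ∧ D.hd e ∈ σ.W n) ∨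
    (∃ e, e ∉ Sp ∧ σ.g e = 1 ∧ D.tl e ∉ σ.W n ∧ D.hd e ∈ σ.B n ∧ D.hd e ∉ σ.Yp n ∧
      D.tl e ∈ back D (σ.Rstar (σ.W n)) {D.hd e}) := by
  -- the reach of a vertex
  set P : V → Finset V := fun u => Finset.univ.filter (fun v => (res D).Reach (σ.Rstar (σ.W n)) u v)
    with hP
  -- the arcs entering `Q = B_n \ Y_{n-1}` from outside `W_n`
  set S : Finset A := Finset.univ.filter (fun e => σ.g e = 1 ∧ D.tl e ∉ σ.W n ∧ D.hd e ∈ σ.B n ∧
    D.hd e ∉ σ.Yp n) with hS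
  have hord : ∀ e ∈ S, e ∉ Sp := by
    intro e he h1
    rw [hS, Finset.mem_filter] at he
    exact he.2.2.1 (σ.B_subset_W n (σ.B_special h1 he.2.2.2.1))
  -- an arc leaving a part of `Q` gives an arc of `S` entering that part
  have hent : ∀ X : Finset V, X ⊆ σ.B n \ σ.Yp n → (∀ a, σ.g a = 1 → D.hd a ∈ X →
      D.tl a ∈ σ.B n \ σ.Yp n → D.tl a ∈ X) →
      (∃ a, σ.g a = 1 ∧ D.tl a ∈ X ∧ D.hd a ∉ X) → ∃ e ∈ S, D.hd e ∈ X := by
    intro X hX hcl ⟨a, ha1, ha2, ha3⟩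
    have hsX : s ∉ X := fun h1 => hs (σ.B_subset_W n (Finset.mem_sdiff.mp (hX h1)).1)
    obtain ⟨e, he1, he2, he3⟩ := σ.g_enter_of_leave hsX ha1 ha2 ha3
    refine ⟨e, ?_, he3⟩
    have h1 := Finset.mem_sdiff.mp (hX he3)
    have h2 : D.tl e ∉ σ.Yp n := fun h3 => h1.2 (σ.Yp_g he1 h3)
    have h3 : D.tl e ∉ σ.B n := fun h4 => he2 (hcl e he1 he3 (Finset.mem_sdiff.mpr ⟨h4, h2⟩))
    rw [hS, Finset.mem_filter]
    refine ⟨Finset.mem_univ _, he1, ?_, h1.1, h1.2⟩
    rw [State.W_eq, Finset.mem_union]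
    push Not
    exact ⟨h2, h3⟩
  have hne : S.Nonempty := by
    obtain ⟨a, ha1, ha2, ha3⟩ := hleave
    obtain ⟨h1, h2⟩ := σ.W_g ha1 ha2 ha3
    obtain ⟨e, he, -⟩ := hent (σ.B n \ σ.Yp n) subset_rfl (fun _ _ _ h => h)
      ⟨a, ha1, Finset.mem_sdiff.mpr ⟨h1, h2⟩,
        fun h3 => ha3 (σ.B_subset_W n (Finset.mem_sdiff.mp h3).1)⟩
    exact ⟨e, he⟩
  obtain ⟨e, he, hmin⟩ := Finset.exists_min_image S (fun e => (P (D.tl e)).card) hne
  have he' := he
  rw [hS, Finset.mem_filter] at he'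
  obtain ⟨-, he1, he2, he3, he4⟩ := he'
  by_cases hY : D.tl e ∈ σ.Y n
  · right
    obtain ⟨f, hf1, hf2, hf3, hf4⟩ := σ.reach_W he2 hY
    obtain ⟨hf5, hf6⟩ := σ.W_g hf1 hf2 hf3
    -- enter `P ∩ Q`
    obtain ⟨a, ha, ha2⟩ := hent (P (D.tl e) ∩ (σ.B n \ σ.Yp n)) Finset.inter_subset_right (by
        intro b hb1 hb2 hb3
        rw [Finset.mem_inter] at hb2 ⊢
        refine ⟨?_, hb3⟩
        have h1 := hb2.1
        rw [hP] at h1 ⊢
        simp only [Finset.mem_filter, Finset.mem_univ, true_and] at h1 ⊢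
        exact Relation.ReflTransGen.tail h1
          ⟨(b, true), σ.mem_Rstar_true.mpr hb1, by simp, by simp⟩)
      ⟨f, hf1, by
        rw [Finset.mem_inter, Finset.mem_sdiff]
        refine ⟨?_, hf5, hf6⟩
        rw [hP]
        simp only [Finset.mem_filter, Finset.mem_univ, true_and]
        exact hf4, by
        rw [Finset.mem_inter, Finset.mem_sdiff]
        rintro ⟨-, h1, -⟩
        exact hf3 (σ.B_subset_W n h1)⟩
    rw [Finset.mem_inter] at ha2
    have ha' := ha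
    rw [hS, Finset.mem_filter] at ha'
    obtain ⟨-, ha3, ha4, ha5, ha6⟩ := ha'
    have h1 : (res D).Reach (σ.Rstar (σ.W n)) (D.tl e) (D.hd a) := by
      have := ha2.1
      rw [hP] at this
      simpa using this
    have h2 : (res D).Reach (σ.Rstar (σ.W n)) (D.tl e) (D.tl a) :=
      Relation.ReflTransGen.tail h1
        ⟨(a, true), σ.mem_Rstar_true.mpr ha3, by simp, by simp⟩
    have h3 : P (D.tl a) ⊆ P (D.tl e) := by
      intro v hv
      rw [hP] at hv ⊢
      simp only [Finset.mem_filter, Finset.mem_univ, true_and] at hv ⊢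
      exact Relation.ReflTransGen.trans h2 hv
    have h4 : P (D.tl a) = P (D.tl e) := Finset.eq_of_subset_of_card_le h3 (hmin a ha)
    refine ⟨a, hord a ha, ha3, ha4, ha5, ha6, ?_⟩
    rw [mem_back_single]
    have h5 : D.hd a ∈ P (D.tl a) := by rw [h4]; exact ha2.1
    rw [hP] at h5
    simpa using h5
  · left
    exact ⟨e, hord e he, he1, hY, σ.B_subset_W n he3⟩

end BHNet.GB
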