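import Mathlib
import Pool.Agent.Lib.MP_3940ed_co.GB.Facts

/-!
# Pushing along residual cycles and trails
-/

namespace BHNet.GB

open Classical BHNet

set_option linter.unusedSectionVars false

variable {V A : Type*} [Fintype V] [DecidableEq V] [Fintype A] [DecidableEq A]
variable {D : Net V A} {Sp : Finset A} {s t : V} {p r : ℕ}

/-- the amount that a set of residual arcs adds to an arc -/
def dl (C : Finset (A × Bool)) (a : A) : ℤ :=
  (if (a, false) ∈ C then 1 else 0) - (if (a, true) ∈ C then 1 else 0)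

lemma nt_add (f f' : A → ℤ) (X : Finset V) :
    nt D (fun a => f a + f' a) X = nt D f X + nt D f' X := by
  unfold nt
  rw [← Finset.sum_add_distrib]
  apply Finset.sum_congr rfl
  intro a _
  ring

lemma nt_dl (C : Finset (A × Bool)) (X : Finset V) :
    nt D (dl C) X = ∑ x ∈ C, chi (res D) X x := by
  have h1 : ∑ x ∈ C, chi (res D) X x = ∑ x : A × Bool, if x ∈ C then chi (res D) X x else 0 := by
    rw [← Finset.sum_filter]
    congr 1
    ext x
    simp
  rw [h1, Fintype.sum_prod_type]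
  unfold nt dl
  apply Finset.sum_congr rfl
  intro a _
  rw [Fintype.sum_bool, chi_res_false, chi_res_true]
  split_ifs <;> ring

variable (σ : State D Sp s t p r)

/-- push `g` along a balanced set of residual arcs -/
lemma State.pushG {C : Finset (A × Bool)} (hC : C ⊆ σ.Rg)
    (hb : ∀ X : Finset V, ∑ x ∈ C, chi (res D) X x = 0) :
    ∃ σ' : State D Sp s t p r, (∀ a, σ'.h a = σ.h a) ∧
      ∀ a, σ'.g a = if (a, false) ∈ C then 1 else if (a, true) ∈ C then 0 else σ.g a := by
  have hf : ∀ a, (a, false) ∈ C → σ.g a = 0 ∧ (a ∈ Sp ∨ σ.h a = 0) := fun a ha =>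
    σ.mem_N.mp (σ.mem_Rg_false.mp (hC ha))
  have ht : ∀ a, (a, true) ∈ C → σ.g a = 1 := fun a ha => σ.mem_Rg_true.mp (hC ha)
  have hval : ∀ a, σ.g a + dl C a =
      if (a, false) ∈ C then 1 else if (a, true) ∈ C then 0 else σ.g a := by
    intro a
    unfold dl
    by_cases h1 : (a, false) ∈ C
    · have h2 := (hf a h1).1
      have h3 : (a, true) ∉ C := fun h4 => by
        have := ht a h4
        omega
      simp [h1, h3, h2]
    · by_cases h3 : (a, true) ∈ C
      · simp [h1, h3, ht a h3]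
      · simp [h1, h3]
  refine ⟨⟨fun a => σ.g a + dl C a, σ.h, ?_, σ.h0, ?_, ?_, σ.fh⟩, fun a => rfl, hval⟩
  · intro a
    show σ.g a + dl C a = 0 ∨ σ.g a + dl C a = 1
    rw [hval a]
    split_ifs
    · exact Or.inr rfl
    · exact Or.inl rfl
    · exact σ.g01 a
  · intro a ha
    show σ.g a + dl C a + σ.h a ≤ 1
    rw [hval a]
    have h4 := σ.gh a ha
    split_ifs with h1 h2
    · have := (hf a h1).2.resolve_left ha
      omega
    · have := σ.h_le a ha
      omega
    · exact h4
  · intro X hX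
    rw [nt_add, nt_dl, hb X, add_zero]
    exact σ.fg X hX

/-- push `h` along a set of residual arcs -/
lemma State.pushH' {Y : Finset V} {C : Finset (A × Bool)} (hC : C ⊆ σ.Rh Y) {r' : ℕ}
    (hb : ∀ X : Finset V, s ∉ X →
      (∑ x ∈ C, chi (res D) X x) + (if t ∈ X then (r : ℤ) else 0) = if t ∈ X then (r' : ℤ) else 0) :
    ∃ σ' : State D Sp s t p r', (∀ a, σ'.g a = σ.g a) ∧ ∀ a, σ'.h a = σ.h a + dl C a := by
  have hf : ∀ a, a ∉ Sp → (a, false) ∈ C → σ.g a = 0 ∧ σ.h a = 0 := by
    intro a ha h1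
    have h2 := (σ.mem_Rh_false.mp (hC h1)).resolve_left ha
    have h3 := σ.mem_N.mp h2.1
    exact ⟨h3.1, h3.2.resolve_left ha⟩
  have ht : ∀ a, (a, true) ∈ C → 1 ≤ σ.h a := fun a ha => σ.mem_Rh_true.mp (hC ha)
  refine ⟨⟨σ.g, fun a => σ.h a + dl C a, σ.g01, ?_, ?_, σ.fg, ?_⟩, fun a => rfl, fun a => rfl⟩
  · intro a
    show 0 ≤ σ.h a + dl C a
    have h1 := σ.h0 a
    unfold dl
    split_ifs with h2 h3 h3
    · omega
    · omega
    · have := ht a h3
      omega
    · omega
  · intro a ha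
    show σ.g a + (σ.h a + dl C a) ≤ 1
    have h4 := σ.gh a ha
    unfold dl
    split_ifs with h2 h3 h3
    · omega
    · have := hf a ha h2
      omega
    · omega
    · omega
  · intro X hX
    rw [nt_add, nt_dl, σ.fh X hX, add_comm]
    exact hb X hX

/-- push `h` along a balanced set of residual arcs -/
lemma State.pushH {Y : Finset V} {C : Finset (A × Bool)} (hC : C ⊆ σ.Rh Y)
    (hb : ∀ X : Finset V, ∑ x ∈ C, chi (res D) X x = 0) :
    ∃ σ' : State D Sp s t p r, (∀ a, σ'.g a = σ.g a) ∧ ∀ a, σ'.h a = σ.h a + dl C a :=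
  σ.pushH' hC (fun X _ => by rw [hb X, zero_add])

/-- augmentation -/
lemma State.augment (h : s ∈ σ.W 0) : Nonempty (State D Sp s t p (r + 1)) := by
  rw [State.W_zero, mem_back_single] at h
  obtain ⟨Q, hQ, hp⟩ := Net.exists_path h
  obtain ⟨σ', -⟩ := σ.pushH' (r' := r + 1) hQ (by
    intro X hX
    rw [trail_sum hp, if_neg hX]
    split_ifs <;> push_cast <;> ring)
  exact ⟨σ'⟩

end BHNet.GB
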