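import Mathlib
import Pool.Agent.Lib.MP_3940ed_co.GB.StepBm
import Pool.Agent.Lib.MP_3940ed_co.GB.Update
import Pool.Agent.Lib.MP_3940ed_co.GB.Lex

/-!
# The two improvements
-/

namespace BHNet.GB

open Classical BHNet

set_option linter.unusedSectionVars false

variable {V A : Type*} [Fintype V] [DecidableEq V] [Fintype A] [DecidableEq A]
variable {D : Net V A} {Sp : Finset A} {s t : V} {p r : ℕ}
variable (σ σ' : State D Sp s t p r)

lemma State.seq_even (k : ℕ) : σ.seq (2 * k) = σ.B k := by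
  unfold State.seq
  rw [if_pos (by omega)]
  congr 1
  omega

lemma State.seq_odd (k : ℕ) : σ.seq (2 * k + 1) = σ.Y k := by
  unfold State.seq
  rw [if_neg (by omega)]
  congr 1
  omega

variable {σ σ'}

lemma B_congr {k m : ℕ} (h : ∀ i < m, σ.seq i = σ'.seq i) (hk : 2 * k < m) : σ.B k = σ'.B k := by
  have := h (2 * k) hk
  rwa [State.seq_even, State.seq_even] at this

lemma Y_congr {k m : ℕ} (h : ∀ i < m, σ.seq i = σ'.seq i) (hk : 2 * k + 1 < m) :
    σ.Y k = σ'.Y k := by
  have := h (2 * k + 1) hk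
  rwa [State.seq_odd, State.seq_odd] at this

lemma Yp_congr {k m : ℕ} (h : ∀ i < m, σ.seq i = σ'.seq i) (hk : 2 * k ≤ m) :
    σ.Yp k = σ'.Yp k := by
  cases k with
  | zero => rfl
  | succ k => exact Y_congr h (by omega)

lemma W_congr {k m : ℕ} (h : ∀ i < m, σ.seq i = σ'.seq i) (hk : 2 * k < m) :
    σ.W k = σ'.W k := by
  rw [State.W_eq, State.W_eq, B_congr h hk, Yp_congr h hk.le]

/-- the steps of the comparison of two chains up to index `m` -/
lemma seq_subset {m : ℕ} (h0 : σ.B 0 ⊆ σ'.B 0)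
    (hY : ∀ k, 2 * k + 1 ≤ m → σ.W k = σ'.W k → σ.Y k ⊆ σ'.Y k)
    (hB : ∀ k, 2 * (k + 1) ≤ m → σ.Y k = σ'.Y k →
      back D (σ.Rh (σ.Y k)) (σ.hds (σ.Y k)) ⊆ back D (σ'.Rh (σ'.Y k)) (σ'.hds (σ'.Y k))) :
    ∀ j ≤ m, (∀ i < j, σ.seq i = σ'.seq i) → σ.seq j ⊆ σ'.seq j := by
  intro j hj h
  obtain ⟨k, hk | hk⟩ := Nat.even_or_odd' j
  · subst hk
    rw [State.seq_even, State.seq_even]
    cases k with
    | zero => exact h0
    | succ k =>
      rw [State.B_succ, State.B_succ]
      apply Finset.union_subset_union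
      · rw [B_congr h (by omega)]
      · exact hB k hj (Y_congr h (by omega))
  · subst hk
    rw [State.seq_odd, State.seq_odd]
    exact hY k hj (W_congr h (by omega))

/-- **Improvement in Step D** -/
lemma State.imprD (σ : State D Sp s t p r) (n : ℕ) {f : A} (hf : f ∉ Sp) (hh : σ.h f = 1)
    (h1 : D.tl f ∉ σ.Y n) (h2 : D.hd f ∈ σ.Y n)
    (h3 : D.tl f ∈ back D (σ.Rh (σ.Y n)) {D.hd f}) :
    ∃ σ' : State D Sp s t p r, ∀ L, 2 * n + 1 < L → pot L σ.seq < pot L σ'.seq := by
  obtain ⟨C, hC, hfC, hbal, havoid⟩ := cycle_exists (D := D) (R := σ.Rh (σ.Y n)) (x0 := (f, true))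
    (σ.mem_Rh_true.mpr (by omega)) (by simpa using h3)
  obtain ⟨σ', hg, hh'⟩ := σ.pushH hC hbal
  -- `C` avoids `B_n`
  have hav : ∀ a b, (a, b) ∈ C → D.tl a ∉ σ.B n ∧ D.hd a ∉ σ.B n := by
    intro a b hab
    have h4 := havoid (σ.B n) (σ.B_closed' (σ.Yp_subset_Y n))
      (by simpa using fun h5 => h1 (σ.B_subset_Y le_rfl h5)) (a, b) hab
    cases b with
    | false => simpa using h4
    | true => simpa using h4.symm
  have hsame : ∀ a, (D.tl a ∈ σ.B n ∨ D.hd a ∈ σ.B n) → σ'.h a = σ.h a := by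
    intro a ha
    rw [hh' a]
    have h4 : (a, false) ∉ C := fun h5 => by
      have := hav a false h5
      tauto
    have h5 : (a, true) ∉ C := fun h5 => by
      have := hav a true h5
      tauto
    simp [dl, h4, h5]
  -- unused arcs inside `Y_n` remain unused
  have hNY : ∀ a ∈ σ.N, D.tl a ∈ σ.Y n → D.hd a ∈ σ.Y n → a ∈ σ'.N := by
    intro a ha h4 h5
    rw [State.mem_N] at ha ⊢
    rw [hg a]
    refine ⟨ha.1, ?_⟩
    by_cases h6 : a ∈ Sp
    · exact Or.inl h6
    · right
      have h7 := ha.2.resolve_left h6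
      have h8 : (a, false) ∉ C := fun h9 => by
        have := (σ.mem_Rh_false.mp (hC h9)).resolve_left h6
        exact this.2 ⟨h4, h5⟩
      have h9 : (a, true) ∉ C := fun h9 => by
        have := σ.mem_Rh_true.mp (hC h9)
        omega
      rw [hh' a]
      simp [dl, h8, h9, h7]
  -- residual arcs of `h` with both ends in `B_n` remain
  have hRh : ∀ Y : Finset V, ∀ x ∈ σ.Rh Y, (res D).hd x ∈ σ.B n → (res D).tl x ∈ σ.B n →
      x ∈ σ'.Rh Y := by
    rintro Y ⟨a, b⟩ hx h4 h5
    cases b with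
    | false =>
      rw [State.mem_Rh_false] at hx ⊢
      rcases hx with hx | ⟨hx1, hx2⟩
      · exact Or.inl hx
      · right
        refine ⟨?_, hx2⟩
        rw [State.mem_N] at hx1 ⊢
        rw [hg a, hsame a (Or.inr (by simpa using h4))]
        exact hx1
    | true =>
      rw [State.mem_Rh_true] at hx ⊢
      rw [hsame a (Or.inl (by simpa using h4))]
      exact hx
  refine ⟨σ', fun L hL => ?_⟩
  apply pot_lt hL
  · apply seq_subset
    · rw [State.B_zero, State.B_zero]
      apply back_mono_in subset_rfl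
      intro x hx h4 h5
      exact hRh ∅ x hx (σ.B_mono (Nat.zero_le n) h4) (σ.B_mono (Nat.zero_le n) h5)
    · intro k hk hW
      unfold State.Y
      apply back_mono_in (by rw [hW])
      rintro ⟨a, b⟩ hx h4 h5
      have hkn : back D σ.Rg (σ.W k) ⊆ σ.Y n := σ.Y_mono (by omega)
      cases b with
      | false =>
        rw [State.mem_Rg_false] at hx ⊢
        exact hNY a hx (hkn (by simpa using h5)) (hkn (by simpa using h4))
      | true =>
        rw [State.mem_Rg_true] at hx ⊢
        rw [hg a]; exact hx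
    · intro k hk hY
      have hkn : back D (σ.Rh (σ.Y k)) (σ.hds (σ.Y k)) ⊆ σ.B n := by
        refine Finset.Subset.trans ?_ (σ.B_mono (show k + 1 ≤ n by omega))
        rw [State.B_succ]
        exact Finset.subset_union_right
      rw [← hY]
      apply back_mono_in
      · intro v hv
        have hvB := hkn (subset_back _ _ hv)
        unfold State.hds at hv ⊢
        rw [Finset.mem_image] at hv ⊢
        obtain ⟨a, ha, rfl⟩ := hv
        rw [Finset.mem_filter] at ha
        refine ⟨a, ?_, rfl⟩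
        rw [Finset.mem_filter, hsame a (Or.inr hvB)]
        exact ha
      · intro x hx h4 h5
        exact hRh _ x hx (hkn h4) (hkn h5)
  · intro h4 h5
    rw [State.seq_odd, State.seq_odd] at h5
    have h6 : f ∈ σ'.N := by
      rw [State.mem_N, hg f]
      refine ⟨σ.g_zero_of_h f hf (by omega), Or.inr ?_⟩
      rw [hh' f]
      have h7 : (f, false) ∉ C := fun h8 => by
        have := (σ.mem_Rh_false.mp (hC h8)).resolve_left hf
        have := (σ.mem_N.mp this.1).2.resolve_left hf
        omega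
      simp [dl, h7, hfC, hh]
    have h7 := σ'.Y_N (n := n) h6 (by rw [← h5]; exact h2)
    rw [← h5] at h7
    exact h1 h7

/-- **Improvement in Step B** -/
lemma State.imprB (σ : State D Sp s t p r) (n : ℕ) {e : A} (he : e ∉ Sp) (heg : σ.g e = 1)
    (h1 : D.tl e ∉ σ.W n) (h2 : D.hd e ∈ σ.B n) (h3 : D.hd e ∉ σ.Yp n)
    (h4 : D.tl e ∈ back D (σ.Rstar (σ.W n)) {D.hd e}) :
    ∃ σ' : State D Sp s t p r, ∀ L, 2 * n < L → pot L σ.seq < pot L σ'.seq := by
  obtain ⟨C, hC, heC, hbal, havoid⟩ := cycle_exists (D := D) (R := σ.Rstar (σ.W n))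
    (x0 := (e, true)) (σ.mem_Rstar_true.mpr heg) (by simpa using h4)
  obtain ⟨σ', hh', hg⟩ := σ.pushG (hC.trans (σ.Rstar_subset _)) hbal
  -- `C` avoids `Y_{n-1}`
  have hav : ∀ a b, (a, b) ∈ C → D.tl a ∉ σ.Yp n ∧ D.hd a ∉ σ.Yp n := by
    intro a b hab
    have h5 := havoid (σ.Yp n) (σ.Yp_closed_star n _)
      (by simpa using fun h5 => h1 (σ.Yp_subset_W n h5)) (a, b) hab
    cases b with
    | false => simpa using h5
    | true => simpa using h5.symm
  have hsame : ∀ a, (D.tl a ∈ σ.Yp n ∨ D.hd a ∈ σ.Yp n) → σ'.g a = σ.g a := by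
    intro a ha
    rw [hg a]
    have h5 : (a, false) ∉ C := fun h5 => by
      have := hav a false h5
      tauto
    have h6 : (a, true) ∉ C := fun h5 => by
      have := hav a true h5
      tauto
    rw [if_neg h5, if_neg h6]
  have hCf : ∀ a, (a, false) ∈ C → D.tl a ∉ σ.W n ∧ D.hd a ∉ σ.W n := fun a ha =>
    (σ.mem_Rstar_false.mp (hC ha)).2
  -- unused arcs touching `W_n` remain unused
  have hNW : ∀ a ∈ σ.N, (D.tl a ∈ σ.W n ∨ D.hd a ∈ σ.W n) → a ∈ σ'.N := by
    intro a ha h5
    rw [State.mem_N] at ha ⊢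
    rw [hh' a, hg a]
    refine ⟨?_, ha.2⟩
    have h6 : (a, false) ∉ C := fun h7 => by
      have := hCf a h7
      tauto
    rw [if_neg h6]
    split_ifs
    · rfl
    · exact ha.1
  have hRh : ∀ Y : Finset V, ∀ x ∈ σ.Rh Y, (res D).hd x ∈ σ.B n → (res D).tl x ∈ σ.B n →
      x ∈ σ'.Rh Y := by
    rintro Y ⟨a, b⟩ hx h5 h6
    cases b with
    | false =>
      rw [State.mem_Rh_false] at hx ⊢
      rcases hx with hx | ⟨hx1, hx2⟩
      · exact Or.inl hx
      · exact Or.inr ⟨hNW a hx1 (Or.inr (σ.B_subset_W n (by simpa using h5))), hx2⟩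
    | true =>
      rw [State.mem_Rh_true] at hx ⊢
      rw [hh' a]
      exact hx
  refine ⟨σ', fun L hL => ?_⟩
  apply pot_lt hL
  · apply seq_subset
    · rw [State.B_zero, State.B_zero]
      apply back_mono_in subset_rfl
      intro x hx h5 h6
      exact hRh ∅ x hx (σ.B_mono (Nat.zero_le n) h5) (σ.B_mono (Nat.zero_le n) h6)
    · intro k hk hW
      unfold State.Y
      apply back_mono_in (by rw [hW])
      rintro ⟨a, b⟩ hx h5 h6
      have hkn : back D σ.Rg (σ.W k) ⊆ σ.Yp n := σ.Y_subset_Yp (by omega)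
      cases b with
      | false =>
        rw [State.mem_Rg_false] at hx ⊢
        exact hNW a hx (Or.inr (σ.Yp_subset_W n (hkn (by simpa using h5))))
      | true =>
        rw [State.mem_Rg_true] at hx ⊢
        rw [hsame a (Or.inl (hkn (by simpa using h5)))]
        exact hx
    · intro k hk hY
      have hkn : back D (σ.Rh (σ.Y k)) (σ.hds (σ.Y k)) ⊆ σ.B n := by
        refine Finset.Subset.trans ?_ (σ.B_mono (show k + 1 ≤ n by omega))
        rw [State.B_succ]
        exact Finset.subset_union_right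
      rw [← hY]
      apply back_mono_in
      · intro v hv
        unfold State.hds at hv ⊢
        rw [Finset.mem_image] at hv ⊢
        obtain ⟨a, ha, rfl⟩ := hv
        rw [Finset.mem_filter] at ha
        refine ⟨a, ?_, rfl⟩
        rw [Finset.mem_filter, hh' a]
        exact ha
      · intro x hx h5 h6
        exact hRh _ x hx (hkn h5) (hkn h6)
  · intro h5 h6
    rw [State.seq_even, State.seq_even] at h6
    have h7 : e ∈ σ'.N := by
      rw [State.mem_N, hh' e, hg e]
      have h8 : (e, false) ∉ C := fun h9 => (hCf e h9).2 (σ.B_subset_W n h2)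
      rw [if_neg h8, if_pos heC]
      refine ⟨rfl, Or.inr ?_⟩
      have h9 := σ.gh e he
      have h10 := σ.h0 e
      omega
    have h8 : D.tl e ∉ σ'.B n := by
      rw [← h6]
      exact fun h9 => h1 (σ.B_subset_W n h9)
    have h9 := σ'.B_N (n := n) h7 (by rw [← h6]; exact h2) h8
    rw [← Yp_congr h5 le_rfl] at h9
    exact h3 h9.2

end BHNet.GB
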