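import Mathlib
import Pool.Agent.Lib.MP_3940ed_co.GB.StepA
import Pool.Agent.Lib.MP_3940ed_co.GB.Impr
import Pool.Agent.Lib.MP_3940ed_co.GB.Final

/-!
# The one-step theorem and the main theorem
-/

namespace BHNet.GB

open Classical BHNet

set_option linter.unusedSectionVars false

variable {V A : Type*} [Fintype V] [DecidableEq V] [Fintype A] [DecidableEq A]
variable {D : Net V A} {Sp : Finset A} {s t : V} {p r : ℕ}

/-- **One-step theorem**: a state of value `r` can be replaced by a state of value `r + 1`. -/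
theorem one_step (hp : 1 ≤ p) {N : ℕ} (hN : p + r < N)
    (hcut : ∀ Z : Finset V, t ∈ Z → s ∉ Z → (D.ent Sp Z).card < p →
      N ≤ (D.ent Finset.univ Z).card) (σ0 : State D Sp s t p r) :
    Nonempty (State D Sp s t p (r + 1)) := by
  by_contra hno
  obtain ⟨σ, hmax⟩ := exists_max σ0 (2 * Fintype.card V + 10)
    (fun σ : State D Sp s t p r => σ.seq)
  have key : ∀ n, n ≤ Fintype.card V + 1 → s ∉ σ.W n ∧ n ≤ (σ.W n).card ∧ σ.EntYp n := by
    intro n
    induction n with
    | zero =>
      intro _
      exact ⟨fun h => hno (σ.augment h), Nat.zero_le _, Or.inl rfl⟩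
    | succ n ih =>
      intro hn
      obtain ⟨hs, hcard, hE⟩ := ih (by omega)
      have hA := σ.stepA hp hN hcut hs hE
      rcases σ.stepB hs hA with ⟨e, he, heg, h1, h2⟩ | ⟨e, he, heg, h1, h2, h3, h4⟩
      · have h3 := σ.W_subset_Y n h2
        have hsY := σ.stepB' heg h1 h3
        have hC := σ.stepC hN hcut he heg h1 h3
        have hsB : s ∉ σ.B (n + 1) := by
          rcases σ.stepD (n := n) (fun h => hs (σ.B_subset_W n h)) with
            ⟨f, hf1, hf2, hf3, hf4, hf5⟩ | h4
          · exfalso
            obtain ⟨σ', hσ'⟩ := σ.imprD n hf1 hf2 hf3 hf4 hf5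
            exact hmax σ' (hσ' _ (by omega))
          · exact h4
        have hsW : s ∉ σ.W (n + 1) := by
          rw [State.W_succ, Finset.mem_union]
          push Not
          exact ⟨hsY, hsB⟩
        refine ⟨hsW, ?_, Or.inr ⟨e, he, heg, h1, h3⟩⟩
        have h5 := σ.W_ssubset_Y hA
        have h6 := Finset.card_le_card (σ.Y_subset_W n)
        omega
      · exfalso
        obtain ⟨σ', hσ'⟩ := σ.imprB n he heg h1 h2 h3 h4
        exact hmax σ' (hσ' _ (by omega))
  obtain ⟨-, h1, -⟩ := key (Fintype.card V + 1) le_rfl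
  have h2 := Finset.card_le_univ (σ.W (Fintype.card V + 1))
  omega

/-- The core statement holds for all `q`. -/
theorem coreStatement_all.{u, v} (q : ℕ) : CoreStatement.{u, v} q := by
  apply core_of_step
  intro V A _ _ _ _ D Sp s t p r _ hp hr hcut σ
  exact one_step hp (N := p + q) (by omega) hcut σ

/-- **The Beineke–Harary statement for all pairs `(k, l)` with `l ≥ 1`.** -/
theorem holds_all.{u, v} (k l : ℕ) (hl : 1 ≤ l) : BeinekeHarary.Holds.{u, v} k l :=
  holds_of_core hl (coreStatement_all (l - 1))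

end BHNet.GB
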