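import Mathlib
import Pool.Agent.Lib.MP_3940ed_co.GB.Base

/-!
# Step D, second half: the source is not in the next set `B`
-/

namespace BHNet.GB

open Classical BHNet

set_option linter.unusedSectionVars false

variable {V A : Type*} [Fintype V] [DecidableEq V] [Fintype A] [DecidableEq A]
variable {D : Net V A} {Sp : Finset A} {s t : V} {p r : ℕ}

lemma B_sub_W_d2 (σ : State D Sp s t p r) (n : ℕ) : σ.B n ⊆ σ.W n := by
  cases n with
  | zero => rw [State.B_zero, State.W_zero]
  | succ n => rw [State.W_succ]; exact Finset.subset_union_right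

/-- If no ordinary `h`-arc entering `Y i` lies on a residual cycle of `Rh (Y i)`, then the source
is not in `B (i+1)`. -/
lemma stepD2 (σ : State D Sp s t p r) (i : ℕ)
    (hf : ∀ f, f ∉ Sp → σ.h f = 1 → D.tl f ∉ σ.Y i → D.hd f ∈ σ.Y i →
      ¬ (res D).Reach (σ.Rh (σ.Y i)) (D.tl f) (D.hd f))
    (hW : s ∉ σ.W i) : s ∉ σ.B (i + 1) := by
  rw [State.B_succ, Finset.mem_union]
  rintro (h1 | h1)
  · exact hW (B_sub_W_d2 σ i h1)
  · unfold back at h1
    rw [Finset.mem_filter] at h1
    obtain ⟨-, d, hd, hr⟩ := h1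
    unfold State.hds at hd
    rw [Finset.mem_image] at hd
    obtain ⟨f, hfm, rfl⟩ := hd
    rw [Finset.mem_filter] at hfm
    obtain ⟨-, hfS, hf1, hft, hfh⟩ := hfm
    have hno := hf f hfS hf1 hft hfh
    set T : Finset V :=
      Finset.univ.filter (fun v => (res D).Reach (σ.Rh (σ.Y i)) (D.tl f) v) with hT
    have hmem : ∀ v, v ∈ T ↔ (res D).Reach (σ.Rh (σ.Y i)) (D.tl f) v := by
      intro v; rw [hT, Finset.mem_filter]; exact ⟨fun h => h.2, fun h => ⟨Finset.mem_univ _, h⟩⟩
    have hsT : s ∉ T := by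
      intro h2
      exact hno (Relation.ReflTransGen.trans ((hmem s).mp h2) hr)
    have hin : ∀ a, 1 ≤ σ.h a → D.hd a ∈ T → D.tl a ∈ T := by
      intro a ha h2
      rw [hmem] at h2 ⊢
      refine Relation.ReflTransGen.tail h2 ⟨(a, true), ?_, ?_, ?_⟩
      · unfold State.Rh
        rw [Finset.mem_filter]
        exact ⟨Finset.mem_univ _, Or.inr ⟨rfl, ha⟩⟩
      · simp [res]
      · simp [res]
    have h3 : nt D σ.h T < 0 := by
      rw [nt_eq]
      have h4 : ∑ a ∈ D.ent Finset.univ T, σ.h a ≤ 0 := by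
        apply Finset.sum_nonpos
        intro a ha
        rw [Net.mem_ent] at ha
        by_contra h5
        exact ha.2.1 (hin a (by omega) ha.2.2)
      have h5 : 1 ≤ ∑ a ∈ D.out Finset.univ T, σ.h a := by
        have h6 : f ∈ D.out Finset.univ T := by
          unfold Net.out
          rw [Finset.mem_filter]
          refine ⟨Finset.mem_univ _, ?_, ?_⟩
          · rw [hmem]; exact Relation.ReflTransGen.refl
          · rw [hmem]; exact hno
        calc (1 : ℤ) = σ.h f := hf1.symm
          _ ≤ ∑ a ∈ D.out Finset.univ T, σ.h a :=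
            Finset.single_le_sum (fun a _ => σ.h0 a) h6
      linarith
    rw [σ.fh T hsT] at h3
    split_ifs at h3
    · have : (0 : ℤ) ≤ (r : ℤ) := Int.natCast_nonneg r
      linarith
    · exact lt_irrefl _ h3

end BHNet.GB
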